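import Mathlib

/-!
# One dyadic block: random shifts

`b` is a sequence of bits (the coefficients of a power series modulo 2), `g` an arbitrary sequence of
bits, `u : Fin K → Fin (2 * N)` a choice of `K` shifts; the new bits are
`g t + ∑ i, b (t - u i)` for `t < N`, with `b = 0` at negative places.
-/

namespace Pool.Agent.H866.NE

open Finset

/-- the indicator of a nonzero bit -/
def ind (a : ZMod 2) : ℝ := if a = 0 then 0 else 1

/-- the sign of a bit -/
def sg (a : ZMod 2) : ℝ := if a = 0 then 1 else -1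

theorem sg_eq (a : ZMod 2) : sg a = 1 - 2 * ind a := by
  unfold sg ind; split_ifs <;> norm_num

theorem ind_nonneg (a : ZMod 2) : 0 ≤ ind a := by
  unfold ind; split_ifs <;> norm_num

theorem ind_le_one (a : ZMod 2) : ind a ≤ 1 := by
  unfold ind; split_ifs <;> norm_num

theorem ind_zero : ind 0 = 0 := by simp [ind]

theorem zmod2_cases (a : ZMod 2) : a = 0 ∨ a = 1 := by
  revert a; decide

theorem sg_add (a c : ZMod 2) : sg (a + c) = sg a * sg c := by
  rcases zmod2_cases a with h | h <;> rcases zmod2_cases c with h' | h' <;> subst h <;> subst h' <;>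
    simp [sg, CharTwo.add_self_eq_zero]

theorem sg_sum {ι : Type*} (s : Finset ι) (f : ι → ZMod 2) :
    sg (∑ i ∈ s, f i) = ∏ i ∈ s, sg (f i) := by
  classical
  induction s using Finset.induction_on with
  | empty => simp [sg]
  | insert a s ha ih => rw [Finset.sum_insert ha, Finset.prod_insert ha, sg_add, ih]

theorem sg_cases (a : ZMod 2) : sg a = 1 ∨ sg a = -1 := by
  unfold sg; split_ifs <;> simp

theorem abs_sg (a : ZMod 2) : |sg a| = 1 := by
  rcases sg_cases a with h | h <;> simp [h]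

theorem sg_le_one (a : ZMod 2) : sg a ≤ 1 := by
  rcases sg_cases a with h | h <;> rw [h]; norm_num

theorem neg_one_le_sg (a : ZMod 2) : -1 ≤ sg a := by
  rcases sg_cases a with h | h <;> rw [h]; norm_num

/-- number of ones among the first `d` bits -/
def A (b : ℕ → ZMod 2) (d : ℕ) : ℝ := ∑ m ∈ range d, ind (b m)

theorem A_mono (b : ℕ → ZMod 2) {d e : ℕ} (h : d ≤ e) : A b d ≤ A b e := by
  unfold A
  exact Finset.sum_le_sum_of_subset_of_nonneg (Finset.range_mono h) fun i _ _ => ind_nonneg _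

theorem A_nonneg (b : ℕ → ZMod 2) (d : ℕ) : 0 ≤ A b d :=
  Finset.sum_nonneg fun i _ => ind_nonneg _

theorem A_le (b : ℕ → ZMod 2) (d : ℕ) : A b d ≤ d := by
  unfold A
  calc ∑ m ∈ range d, ind (b m) ≤ ∑ m ∈ range d, (1 : ℝ) := Finset.sum_le_sum fun i _ => ind_le_one _
    _ = d := by simp

/-- the bits shifted by `v`, at the place `t` -/
def sh (b : ℕ → ZMod 2) (t v : ℕ) : ZMod 2 := if v ≤ t then b (t - v) else 0

theorem sum_ind_sh (b : ℕ → ZMod 2) (t M : ℕ) (h : t + 1 ≤ M) :
    ∑ v ∈ range M, ind (sh b t v) = A b (t + 1) := by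
  unfold A
  rw [← Finset.sum_range_reflect (fun m => ind (b m)) (t + 1)]
  rw [← Finset.sum_subset (Finset.range_mono h)]
  · refine Finset.sum_congr rfl fun v hv => ?_
    have hv' : v ≤ t := by simpa [Nat.lt_succ_iff] using hv
    unfold sh
    rw [if_pos hv']
    congr 2
  · intro v _ hv
    have : ¬ v ≤ t := by simpa [Nat.lt_succ_iff] using hv
    unfold sh
    rw [if_neg this, ind_zero]

/-- number of common ones of two shifts -/
def I (b : ℕ → ZMod 2) (M t t' : ℕ) : ℝ := ∑ v ∈ range M, ind (sh b t v) * ind (sh b t' v)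

theorem I_nonneg (b : ℕ → ZMod 2) (M t t' : ℕ) : 0 ≤ I b M t t' :=
  Finset.sum_nonneg fun _ _ => mul_nonneg (ind_nonneg _) (ind_nonneg _)

/-- the sum of the signs of one shift -/
theorem sum_sg_sh (b : ℕ → ZMod 2) (t M : ℕ) (h : t + 1 ≤ M) :
    ∑ v ∈ range M, sg (sh b t v) = M - 2 * A b (t + 1) := by
  simp only [sg_eq, Finset.sum_sub_distrib, ← Finset.mul_sum, sum_ind_sh b t M h]
  simp

theorem sum_sg_sh2 (b : ℕ → ZMod 2) (t t' M : ℕ) (h : t + 1 ≤ M) (h' : t' + 1 ≤ M) :
    ∑ v ∈ range M, sg (sh b t v) * sg (sh b t' v) =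
      M - 2 * (A b (t + 1) + A b (t' + 1) - 2 * I b M t t') := by
  have : ∀ v, sg (sh b t v) * sg (sh b t' v) =
      1 - 2 * ind (sh b t v) - 2 * ind (sh b t' v) + 4 * (ind (sh b t v) * ind (sh b t' v)) := by
    intro v; rw [sg_eq, sg_eq]; ring
  simp only [this, Finset.sum_add_distrib, Finset.sum_sub_distrib, ← Finset.mul_sum,
    sum_ind_sh b t M h, sum_ind_sh b t' M h']
  unfold I
  simp
  ring

/-- the new bit -/
def nw (b g : ℕ → ZMod 2) {K M : ℕ} (u : Fin K → Fin M) (t : ℕ) : ZMod 2 :=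
  g t + ∑ i, sh b t (u i)

theorem sg_nw (b g : ℕ → ZMod 2) {K M : ℕ} (u : Fin K → Fin M) (t : ℕ) :
    sg (nw b g u t) = sg (g t) * ∏ i, sg (sh b t (u i)) := by
  unfold nw; rw [sg_add, sg_sum]

/-- correlation of one place -/
noncomputable def c1 (b : ℕ → ZMod 2) (N t : ℕ) : ℝ := 1 - A b (t + 1) / N

/-- correlation of two places -/
noncomputable def c2 (b : ℕ → ZMod 2) (N t t' : ℕ) : ℝ :=
  1 - (A b (t + 1) + A b (t' + 1) - 2 * I b (2 * N) t t') / N

theorem sum_X (b g : ℕ → ZMod 2) (K N t : ℕ) (hN : 0 < N) (ht : t < N) :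
    ∑ u : Fin K → Fin (2 * N), sg (nw b g u t) =
      (2 * N : ℝ) ^ K * (sg (g t) * c1 b N t ^ K) := by
  have hN' : (N : ℝ) ≠ 0 := by positivity
  simp only [sg_nw, ← Finset.mul_sum]
  rw [← Fintype.sum_pow (fun v : Fin (2 * N) => sg (sh b t v)) K,
    Finset.sum_range (fun v => sg (sh b t v)) |>.symm, sum_sg_sh b t (2 * N) (by omega)]
  have : ((2 * N : ℕ) : ℝ) - 2 * A b (t + 1) = (2 * N) * c1 b N t := by
    unfold c1; push_cast; field_simp
  rw [this, mul_pow]; ring

theorem sum_XX (b g : ℕ → ZMod 2) (K N t t' : ℕ) (hN : 0 < N) (ht : t < N) (ht' : t' < N) :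
    ∑ u : Fin K → Fin (2 * N), sg (nw b g u t) * sg (nw b g u t') =
      (2 * N : ℝ) ^ K * (sg (g t) * sg (g t') * c2 b N t t' ^ K) := by
  have hN' : (N : ℝ) ≠ 0 := by positivity
  have : ∀ u : Fin K → Fin (2 * N), sg (nw b g u t) * sg (nw b g u t') =
      sg (g t) * sg (g t') * ∏ i, (sg (sh b t (u i)) * sg (sh b t' (u i))) := by
    intro u; rw [sg_nw, sg_nw, Finset.prod_mul_distrib]; ring
  simp only [this, ← Finset.mul_sum]
  rw [← Fintype.sum_pow (fun v : Fin (2 * N) => sg (sh b t v) * sg (sh b t' v)) K,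
    Finset.sum_range (fun v => sg (sh b t v) * sg (sh b t' v)) |>.symm,
    sum_sg_sh2 b t t' (2 * N) (by omega) (by omega)]
  have : ((2 * N : ℕ) : ℝ) - 2 * (A b (t + 1) + A b (t' + 1) - 2 * I b (2 * N) t t') =
      (2 * N) * c2 b N t t' := by
    unfold c2; push_cast; field_simp
  rw [this, mul_pow]; ring

/-- the correlation `c2` is nonnegative -/
theorem c2_nonneg (b : ℕ → ZMod 2) (N t t' : ℕ) (hN : 0 < N) (ht : t < N) (ht' : t' < N) :
    0 ≤ c2 b N t t' := by
  have hN' : (0 : ℝ) < N := by positivity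
  have h := sum_sg_sh2 b t t' (2 * N) (by omega) (by omega)
  have h2 : (0 : ℝ) ≤ ∑ v ∈ range (2 * N), sg (sh b t v) * sg (sh b t' v) := by
    rw [two_mul, Finset.sum_range_add]
    have e1 : ∑ x ∈ range N, sg (sh b t (N + x)) * sg (sh b t' (N + x)) = N := by
      have : ∀ x ∈ range N, sg (sh b t (N + x)) * sg (sh b t' (N + x)) = 1 := by
        intro x _
        unfold sh
        rw [if_neg (by omega), if_neg (by omega)]
        simp [sg]
      rw [Finset.sum_congr rfl this]; simp
    have e2 : -(N : ℝ) ≤ ∑ v ∈ range N, sg (sh b t v) * sg (sh b t' v) := by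
      have : ∑ v ∈ range N, (-1 : ℝ) ≤ ∑ v ∈ range N, sg (sh b t v) * sg (sh b t' v) := by
        refine Finset.sum_le_sum fun v _ => ?_
        rcases sg_cases (sh b t v) with h | h <;> rcases sg_cases (sh b t' v) with h' | h' <;>
          rw [h, h'] <;> norm_num
      simpa using this
    linarith
  rw [h] at h2
  unfold c2
  push_cast at h2
  have : (A b (t + 1) + A b (t' + 1) - 2 * I b (2 * N) t t') / N ≤ 1 := by
    rw [div_le_one hN']; linarith
  linarith

/-- two places at distance at least `d` differ in at least `A b d` shifts -/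
theorem A_le_diff (b : ℕ → ZMod 2) (M t t' d : ℕ) (hd : t + d ≤ t') (ht' : t' < M) :
    A b d ≤ A b (t + 1) + A b (t' + 1) - 2 * I b M t t' := by
  have h1 : A b (t + 1) + A b (t' + 1) - 2 * I b M t t' =
      ∑ v ∈ range M, (ind (sh b t v) + ind (sh b t' v) - 2 * (ind (sh b t v) * ind (sh b t' v))) := by
    simp only [Finset.sum_add_distrib, Finset.sum_sub_distrib, ← Finset.mul_sum,
      sum_ind_sh b t M (by omega), sum_ind_sh b t' M (by omega)]
    rfl
  rw [h1]
  have h2 : A b d ≤ ∑ v ∈ range M, (if t < v then ind (sh b t' v) else 0) := by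
    unfold A
    rw [← Finset.sum_filter]
    have : ∑ m ∈ range d, ind (b m) = ∑ v ∈ (range d).image (fun m => t' - m), ind (sh b t' v) := by
      rw [Finset.sum_image]
      · refine Finset.sum_congr rfl fun m hm => ?_
        have hm' : m < d := by simpa using hm
        unfold sh
        rw [if_pos (by omega)]
        congr 2; omega
      · intro x hx y hy hxy
        have hx' : x < d := by simpa using hx
        have hy' : y < d := by simpa using hy
        dsimp only at hxy
        omega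
    rw [this]
    refine Finset.sum_le_sum_of_subset_of_nonneg ?_ fun _ _ _ => ind_nonneg _
    intro v hv
    simp only [Finset.mem_image, Finset.mem_range] at hv
    obtain ⟨m, hm, rfl⟩ := hv
    simp only [Finset.mem_filter, Finset.mem_range]
    omega
  refine h2.trans (Finset.sum_le_sum fun v _ => ?_)
  have ha := ind_nonneg (sh b t v)
  have ha' := ind_le_one (sh b t v)
  have hb := ind_nonneg (sh b t' v)
  have hb' := ind_le_one (sh b t' v)
  split_ifs with hv
  · have : ind (sh b t v) = 0 := by unfold sh; rw [if_neg (by omega), ind_zero]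
    rw [this]; linarith
  · nlinarith [mul_nonneg ha (sub_nonneg.2 hb'), mul_nonneg hb (sub_nonneg.2 ha')]

theorem I_comm (b : ℕ → ZMod 2) (M t t' : ℕ) : I b M t t' = I b M t' t := by
  unfold I; exact Finset.sum_congr rfl fun _ _ => mul_comm _ _

theorem c2_le (b : ℕ → ZMod 2) (N t t' E : ℕ) (hN : 0 < N) (ht : t < N) (ht' : t' < N)
    (hE : t + E ≤ t' ∨ t' + E ≤ t) : c2 b N t t' ≤ 1 - A b E / N := by
  have hN' : (0 : ℝ) < N := by positivity
  unfold c2
  have : A b E ≤ A b (t + 1) + A b (t' + 1) - 2 * I b (2 * N) t t' := by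
    rcases hE with h | h
    · exact A_le_diff b (2 * N) t t' E h (by omega)
    · have := A_le_diff b (2 * N) t' t E h (by omega)
      rw [I_comm b (2 * N) t t']; linarith
  have := div_le_div_of_nonneg_right this hN'.le
  linarith

theorem c2_le_one (b : ℕ → ZMod 2) (N t t' : ℕ) (hN : 0 < N) (ht : t < N) (ht' : t' < N) :
    c2 b N t t' ≤ 1 := by
  have := c2_le b N t t' 0 hN ht ht' (by omega)
  simpa [A] using this

end Pool.Agent.H866.NE
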