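import Pool.Agent.H866.NE.Series

namespace Pool.Agent.H866.NE

open Finset PowerSeries Filter Topology

/-- a slowly growing stage function -/
theorem exists_stage (cond : ℕ → ℕ → Prop) (hmono : ∀ r J J', J ≤ J' → cond r J → cond r J')
    (hex : ∀ r, ∃ J, cond r J) :
    ∃ r : ℕ → ℕ, Monotone r ∧ Tendsto r atTop atTop ∧ ∀ J, r J ≠ 0 → cond (r J) J := by
  classical
  refine ⟨fun J => Nat.findGreatest (fun m => cond m J) J, ?_, ?_, ?_⟩
  · intro J J' h
    exact Nat.findGreatest_mono (fun m hm => hmono m J J' h hm) h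
  · rw [tendsto_atTop]
    intro R
    obtain ⟨J, hJ⟩ := hex R
    filter_upwards [eventually_ge_atTop (max J R)] with J' hJ'
    exact Nat.le_findGreatest (le_trans (le_max_right _ _) hJ')
      (hmono R J J' (le_trans (le_max_left _ _) hJ') hJ)
  · intro J h
    exact Nat.findGreatest_of_ne_zero (P := fun m => cond m J) rfl h

theorem growth_aux (a κ : ℕ → ℝ) (ha : Monotone a) (ha1 : ∀ J, 1 ≤ a J) (hκ : Antitone κ)
    (hκ0 : ∀ J, 0 ≤ κ J) (J0 : ℕ)
    (hg : ∀ J ≥ J0, a J ≤ κ (J + 1) * 2 ^ J → 8 * a J ≤ a (J + 2)) (s : ℕ) (hs : J0 ≤ s) (i : ℕ) :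
    (8 : ℝ) ^ i ≤ a (s + 2 * i) ∨ κ (s + 2 * i) / 4 * 2 ^ (s + 2 * i) ≤ a (s + 2 * i) := by
  induction i with
  | zero => left; simpa using ha1 s
  | succ i ih =>
    set J := s + 2 * i with hJ
    have e : s + 2 * (i + 1) = J + 2 := by omega
    rw [e]
    have hκ2 : κ (J + 2) ≤ κ (J + 1) := hκ (by omega)
    have hκ3 : κ (J + 2) ≤ κ J := hκ (by omega)
    have hp : (0 : ℝ) < 2 ^ J := by positivity
    have hp2 : (2 : ℝ) ^ (J + 2) = 4 * 2 ^ J := by ring
    by_cases hc : a J ≤ κ (J + 1) * 2 ^ J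
    · have h8 := hg J (by omega) hc
      rcases ih with h | h
      · left; rw [pow_succ]; linarith
      · right
        rw [hp2]
        have h9 := mul_le_mul_of_nonneg_right hκ3 hp.le
        have h10 := mul_nonneg (hκ0 J) hp.le
        nlinarith
    · right
      push Not at hc
      have h1 : a J ≤ a (J + 2) := ha (by omega)
      rw [hp2]
      have h9 := mul_le_mul_of_nonneg_right hκ2 hp.le
      nlinarith

theorem growth_lemma (a κ : ℕ → ℝ) (ha : Monotone a) (ha1 : ∀ J, 1 ≤ a J) (hκ : Antitone κ)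
    (hκ0 : ∀ J, 0 ≤ κ J) (hκ1 : ∀ J, κ J ≤ 1) (J0 : ℕ)
    (hg : ∀ J ≥ J0, a J ≤ κ (J + 1) * 2 ^ J → 8 * a J ≤ a (J + 2)) :
    ∃ J1, ∀ J ≥ J1, κ J / 4 * 2 ^ J ≤ a J := by
  refine ⟨3 * J0 + 3, fun J hJ => ?_⟩
  have key : ∀ s i, J0 ≤ s → s ≤ i → s + 2 * i = J → κ J / 4 * 2 ^ J ≤ a J := by
    intro s i hs hi he
    have h := growth_aux a κ ha ha1 hκ hκ0 J0 hg s hs i
    rw [he] at h
    rcases h with h | h
    · refine le_trans ?_ h
      have h1 : (2 : ℝ) ^ J ≤ 8 ^ i := by
        have : (8 : ℝ) ^ i = 2 ^ (3 * i) := by rw [pow_mul]; norm_num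
        rw [this]
        exact pow_le_pow_right₀ (by norm_num) (by omega)
      have h2 := hκ0 J
      have h3 := hκ1 J
      have hp : (0 : ℝ) < 2 ^ J := by positivity
      nlinarith
    · exact h
  rcases Nat.even_or_odd (J - J0) with h | h
  · obtain ⟨i, hi⟩ := h
    exact key J0 i le_rfl (by omega) (by omega)
  · obtain ⟨i, hi⟩ := h
    exact key (J0 + 1) i (by omega) (by omega) (by omega)

/-- the sequence of finite sets -/
noncomputable def sq (T : ℕ → Finset ℕ → Finset ℕ) : ℕ → Finset ℕ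
  | 0 => ∅
  | J + 1 => sq T J ∪ T J (sq T J)

theorem construct (ψ : ℕ → ℝ) (hψ : Tendsto ψ atTop atTop) (B : ℕ → PowerSeries (ZMod 2))
    (hB : ∀ i, co (B i) 0 ≠ 0) (w : ℕ → ℕ → ℝ) (hw : ∀ k n, |w k n| ≤ 1) :
    ∃ S : Set ℕ, 0 ∉ S ∧
      (∀ᶠ x : ℕ in atTop, ((S ∩ Set.Icc 1 x).ncard : ℝ) ≤ ψ x * Real.log x) ∧
      ∀ i k, Tendsto (fun J : ℕ =>
        (∑ t ∈ range (2 ^ J), w k (2 ^ J + t) * sg (sco (B i) S (2 ^ J + t))) / 2 ^ J)
        atTop (𝓝 0) := by
  classical
  have hstep := fun r : ℕ => step_series r r (1 / ((r : ℝ) + 1)) (1 / (40000 * ((r : ℝ) + 1)))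
    (by positivity) (by positivity) (le_of_eq (by field_simp))
  choose e K h using hstep
  set Km : ℕ → ℕ := fun r => ∑ j ∈ range (r + 1), K j with hKm
  have hKmK : ∀ r, K r ≤ Km r := fun r =>
    Finset.single_le_sum (f := K) (fun _ _ => Nat.zero_le _) (Finset.mem_range.2 (Nat.lt_succ_self r))
  have hKmono : Monotone Km := fun r r' hr =>
    Finset.sum_le_sum_of_subset (Finset.range_mono (by omega))
  obtain ⟨r, hrmono, hrtop, hrc⟩ := exists_stage
    (fun r J => 2 * e r ≤ J ∧ 1 ≤ J ∧ ∀ x ≥ 2 ^ J, 4 * (Km r : ℝ) ≤ ψ x)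
    (fun r J J' hJ hc => ⟨by omega, by omega, fun x hx => hc.2.2 x
      (le_trans (Nat.pow_le_pow_right (by norm_num) hJ) hx)⟩)
    (fun r => by
      obtain ⟨X, hX⟩ := eventually_atTop.1 (hψ.eventually_ge_atTop (4 * (Km r : ℝ)))
      refine ⟨2 * e r + 1 + X, by omega, by omega, fun x hx => hX x ?_⟩
      have h1 : 2 * e r + 1 + X < 2 ^ (2 * e r + 1 + X) := Nat.lt_two_pow_self
      omega)
  set κ : ℕ → ℝ := fun J => 1 / (40000 * ((r J : ℝ) + 1)) with hκ
  -- the property of a good new set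
  have hex : ∀ (J : ℕ) (S : Finset ℕ), ∃ T : Finset ℕ, 0 ∉ S →
      ((∀ s ∈ T, 2 ^ J ≤ s ∧ s < 2 ^ (J + 1)) ∧ (r J = 0 → T = ∅) ∧ T.card ≤ K (r J) ∧
      ∀ i < r J,
        (A (co (B i * F S)) (2 ^ (J - 1)) ≤ κ J * 2 ^ (J - 1) →
          8 * A (co (B i * F S)) (2 ^ (J - 1)) ≤ A (co (B i * F S * F T)) (2 ^ (J + 1))) ∧
        (κ J / 4 * 2 ^ (J - e (r J)) ≤ A (co (B i * F S)) (2 ^ (J - e (r J))) → ∀ k < r J,
          |∑ t ∈ range (2 ^ J), w k (2 ^ J + t) * sg (co (B i * F S * F T) (2 ^ J + t))| ≤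
            1 / ((r J : ℝ) + 1) * 2 ^ J)) := by
    intro J S
    by_cases hr0 : r J = 0
    · refine ⟨∅, fun _ => ⟨by simp, fun _ => rfl, by simp, fun i hi => ?_⟩⟩
      omega
    · by_cases hS : 0 ∈ S
      · exact ⟨∅, fun hn => absurd hS hn⟩
      · obtain ⟨h1, h2, -⟩ := hrc J hr0
        obtain ⟨T, hT1, hT2, hT3⟩ := h (r J) J (by omega) h2 (fun i => B i * F S)
          (fun k t => w k (2 ^ J + t)) (fun i => by rw [co_F_zero _ _ hS]; exact hB i)
          (fun k t => hw k _)
        exact ⟨T, fun _ => ⟨hT1, fun hh => absurd hh hr0, hT2, hT3⟩⟩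
  choose T hT using hex
  have inv : ∀ J, 0 ∉ sq T J ∧ ∀ s ∈ sq T J, s < 2 ^ J := by
    intro J
    induction J with
    | zero => simp [sq]
    | succ J ih =>
      obtain ⟨h0, hlt⟩ := ih
      have hg := (hT J (sq T J) h0).1
      constructor
      · rw [sq, Finset.mem_union, not_or]
        refine ⟨h0, fun hc => ?_⟩
        have := (hg 0 hc).1
        have : 0 < 2 ^ J := by positivity
        omega
      · intro s hs
        rw [sq, Finset.mem_union] at hs
        rcases hs with hs | hs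
        · have := hlt s hs
          rw [pow_succ]; omega
        · exact (hg s hs).2
  have hgood := fun J => hT J (sq T J) (inv J).1
  set S : Set ℕ := {s | ∃ J, s ∈ sq T J} with hS
  have hmonoS : ∀ J J', J ≤ J' → sq T J ⊆ sq T J' := by
    intro J J' hJ
    induction hJ with
    | refl => exact Finset.Subset.refl _
    | step _ ih => exact ih.trans (by rw [sq]; exact Finset.subset_union_left)
  have hback : ∀ J J', J ≤ J' → ∀ s ∈ sq T J', s < 2 ^ J → s ∈ sq T J := by
    intro J J' hJ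
    induction hJ with
    | refl => exact fun s hs _ => hs
    | @step m hm ih =>
      intro s hs hlt
      rw [sq, Finset.mem_union] at hs
      rcases hs with hs | hs
      · exact ih s hs hlt
      · have h1 := ((hgood m).1 s hs).1
        have h2 : 2 ^ J ≤ 2 ^ m := Nat.pow_le_pow_right (by norm_num) hm
        omega
  have hmem : ∀ J, ∀ s < 2 ^ J, s ∈ sq T J ↔ s ∈ S := by
    intro J s hs
    constructor
    · exact fun h => ⟨J, h⟩
    · rintro ⟨J', hJ'⟩
      rcases le_total J J' with hl | hl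
      · exact hback J J' hl s hJ' hs
      · exact hmonoS J' J hl hJ'
  have hsco : ∀ (B' : PowerSeries (ZMod 2)) J n, n < 2 ^ J → sco B' S n = co (B' * F (sq T J)) n := by
    intro B' J n hn
    exact sco_eq B' S (sq T J) n fun s hs => hmem J s (by omega)
  have hFsq : ∀ (B' : PowerSeries (ZMod 2)) J, B' * F (sq T J) * F (T J (sq T J)) =
      B' * F (sq T (J + 1)) := by
    intro B' J
    rw [sq, F_union, mul_assoc]
    rw [Finset.disjoint_left]
    intro s h1 h2
    have h3 := (inv J).2 s h1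
    have h4 := ((hgood J).1 s h2).1
    omega
  refine ⟨S, ?_, ?_, ?_⟩
  · rintro ⟨J, hJ⟩
    exact (inv J).1 hJ
  · -- the number of elements
    have hcard : ∀ J, r J ≠ 0 → (sq T (J + 1)).card ≤ (J + 1) * Km (r J) := by
      have gen : ∀ J0, r J0 ≠ 0 → ∀ J, J ≤ J0 + 1 → (sq T J).card ≤ J * Km (r J0) := by
        intro J0 hr0 J
        induction J with
        | zero => intro _; simp [sq]
        | succ J ih =>
          intro hJ
          rw [sq]
          refine (Finset.card_union_le _ _).trans ?_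
          have h1 := ih (by omega)
          have h2 := (hgood J).2.2.1
          have h3 : K (r J) ≤ Km (r J0) := (hKmK _).trans (hKmono (hrmono (by omega)))
          rw [add_mul, one_mul]
          omega
      intro J hr0
      exact gen J hr0 (J + 1) le_rfl
    have hcard0 : ∀ J, r J = 0 → sq T (J + 1) = ∅ := by
      have gen : ∀ J0, r J0 = 0 → ∀ J, J ≤ J0 + 1 → sq T J = ∅ := by
        intro J0 hr0 J
        induction J with
        | zero => intro _; rfl
        | succ J ih =>
          intro hJ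
          have h1 := ih (by omega)
          have h2 := (hgood J).2.1 (Nat.le_zero.1 (hr0 ▸ hrmono (by omega : J ≤ J0)))
          rw [sq, h2, h1, Finset.empty_union]
      intro J hr0
      exact gen J hr0 (J + 1) le_rfl
    filter_upwards [hψ.eventually_ge_atTop 0, eventually_ge_atTop 2] with x hx0 hx2
    set J := Nat.log 2 x with hJ
    have hJ1 : 2 ^ J ≤ x := Nat.pow_log_le_self 2 (by omega)
    have hJ2 : x < 2 ^ (J + 1) := Nat.lt_pow_succ_log_self (by norm_num) x
    have hJpos : 1 ≤ J := by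
      rw [hJ]
      exact Nat.log_pos (by norm_num) hx2
    have hsub : S ∩ Set.Icc 1 x ⊆ (sq T (J + 1) : Set ℕ) := by
      rintro s ⟨hs, hs2⟩
      exact (hmem (J + 1) s (lt_of_le_of_lt hs2.2 hJ2)).2 hs
    have hnc : (S ∩ Set.Icc 1 x).ncard ≤ (sq T (J + 1)).card := by
      have := Set.ncard_le_ncard hsub (Finset.finite_toSet _)
      rwa [Set.ncard_coe_finset] at this
    have hlogx : (J : ℝ) * Real.log 2 ≤ Real.log x := by
      rw [← Real.log_pow]
      exact Real.log_le_log (by positivity) (by exact_mod_cast hJ1)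
    have hlog2 : (0.5 : ℝ) ≤ Real.log 2 := by
      have := Real.log_two_gt_d9; linarith
    have hJr : (1 : ℝ) ≤ J := by exact_mod_cast hJpos
    have hl : ((J : ℝ) + 1) / 4 ≤ Real.log x := by nlinarith
    by_cases hr0 : r J = 0
    · rw [hcard0 J hr0] at hnc
      have : (S ∩ Set.Icc 1 x).ncard = 0 := by simpa using hnc
      rw [this]
      have : 0 ≤ Real.log x := by linarith
      simpa using mul_nonneg hx0 this
    · have h1 := hcard J hr0
      have h2 := (hrc J hr0).2.2 x hJ1
      have h3 : ((S ∩ Set.Icc 1 x).ncard : ℝ) ≤ (J + 1) * Km (r J) := by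
        exact_mod_cast hnc.trans h1
      calc ((S ∩ Set.Icc 1 x).ncard : ℝ) ≤ (J + 1) * Km (r J) := h3
        _ ≤ (J + 1) * (ψ x / 4) := mul_le_mul_of_nonneg_left (by linarith) (by positivity)
        _ = ψ x * (((J : ℝ) + 1) / 4) := by ring
        _ ≤ ψ x * Real.log x := mul_le_mul_of_nonneg_left hl hx0
  · intro i k
    set f : ℕ → ZMod 2 := sco (B i) S with hf
    have hAf : ∀ J J', J' ≤ J → A (co (B i * F (sq T J))) (2 ^ J') = A f (2 ^ J') := by
      intro J J' hJ
      refine A_congr fun n hn => ?_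
      rw [hf, hsco (B i) J n (lt_of_lt_of_le hn (Nat.pow_le_pow_right (by norm_num) hJ))]
    obtain ⟨J0, hJ0⟩ := eventually_atTop.1 (hrtop.eventually_gt_atTop (max i k))
    have hf0 : f 0 ≠ 0 := by
      rw [hf, hsco (B i) 0 0 (by norm_num)]
      simpa [sq, F] using hB i
    obtain ⟨J1, hJ1⟩ := growth_lemma (fun J => A f (2 ^ J)) κ
      (fun J J' hJ => A_mono f (Nat.pow_le_pow_right (by norm_num) hJ))
      (fun J => one_le_A f hf0 _ (by positivity))
      (fun J J' hJ => by
        rw [hκ]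
        have h1 : (r J : ℝ) ≤ r J' := by exact_mod_cast hrmono hJ
        exact one_div_le_one_div_of_le (by positivity) (by linarith))
      (fun J => by rw [hκ]; positivity)
      (fun J => by
        rw [hκ]
        have h1 : (0 : ℝ) ≤ r J := by positivity
        rw [div_le_one (by positivity)]
        linarith) J0
      (fun J hJ hA => by
        have hi : i < r (J + 1) := lt_of_le_of_lt (le_max_left i k) (hJ0 (J + 1) (by omega))
        have h1 := ((hgood (J + 1)).2.2.2 i hi).1
        rw [show J + 1 - 1 = J by omega, hAf (J + 1) J (by omega), hFsq,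
          hAf (J + 1 + 1) (J + 1 + 1) le_rfl] at h1
        exact h1 hA)
    have hbound : ∀ᶠ J in atTop,
        ‖(∑ t ∈ range (2 ^ J), w k (2 ^ J + t) * sg (f (2 ^ J + t))) / 2 ^ J‖ ≤
          1 / ((r J : ℝ) + 1) := by
      filter_upwards [eventually_ge_atTop (J0 + 2 * J1 + 1)] with J hJ
      have hi : i < r J := lt_of_le_of_lt (le_max_left i k) (hJ0 J (by omega))
      have hk : k < r J := lt_of_le_of_lt (le_max_right i k) (hJ0 J (by omega))
      have hr0 : r J ≠ 0 := by omega
      obtain ⟨he, -, -⟩ := hrc J hr0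
      have h1 := ((hgood J).2.2.2 i hi).2
      rw [hAf J _ (by omega)] at h1
      have h2 := hJ1 (J - e (r J)) (by omega)
      have h3 : κ J ≤ κ (J - e (r J)) := by
        rw [hκ]
        have h1 : (r (J - e (r J)) : ℝ) ≤ r J := by exact_mod_cast hrmono (by omega)
        exact one_div_le_one_div_of_le (by positivity) (by linarith)
      have h4 := h1 (by
        refine le_trans ?_ h2
        refine mul_le_mul_of_nonneg_right ?_ (by positivity)
        linarith) k hk
      have h5 : ∑ t ∈ range (2 ^ J), w k (2 ^ J + t) *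
          sg (co (B i * F (sq T J) * F (T J (sq T J))) (2 ^ J + t)) =
          ∑ t ∈ range (2 ^ J), w k (2 ^ J + t) * sg (f (2 ^ J + t)) := by
        refine Finset.sum_congr rfl fun t ht => ?_
        rw [hFsq, hf, hsco (B i) (J + 1) (2 ^ J + t) (by
          have := Finset.mem_range.1 ht
          rw [pow_succ]; omega)]
      rw [h5] at h4
      rw [Real.norm_eq_abs, abs_div, abs_of_pos (by positivity : (0 : ℝ) < 2 ^ J),
        div_le_iff₀ (by positivity)]
      exact h4
    have hlim : Tendsto (fun J => 1 / ((r J : ℝ) + 1)) atTop (𝓝 0) :=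
      tendsto_one_div_add_atTop_nhds_zero_nat.comp hrtop
    exact squeeze_zero_norm' hbound hlim

end Pool.Agent.H866.NE
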