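import Pool.Agent.H866.NE.Words

namespace Pool.Agent.H866.NE

open Finset PowerSeries Filter Topology

theorem F_ne_zero (T : Finset ℕ) (hT : 0 ∉ T) : F T ≠ 0 := by
  intro h
  have h1 := co_F_zero 1 T hT
  rw [one_mul, h] at h1
  simp [co] at h1

theorem F_inv_ne_zero (T : Finset ℕ) (hT : 0 ∉ T) : (F T)⁻¹ ≠ 0 := by
  intro h
  have hinv : (F T)⁻¹ * F T = 1 := by
    apply PowerSeries.inv_mul_cancel
    have := co_F_zero 1 T hT
    unfold co at this
    rw [one_mul, PowerSeries.coeff_zero_eq_constantCoeff_apply] at this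
    rw [this]; simp
  rw [h, zero_mul] at hinv
  exact zero_ne_one hinv

/-- **signs of windows, for all finite changes of the set** -/
theorem windows (ψ : ℕ → ℝ) (hψ : Tendsto ψ atTop atTop) {ι κ : Type} [Countable ι] [Countable κ]
    (G : ι → PowerSeries (ZMod 2)) (w : κ → ℕ → ℝ) (hG : ∀ j, G j ≠ 0) (hw : ∀ k n, |w k n| ≤ 1) :
    ∃ S : Set ℕ, 0 ∉ S ∧
      (∀ᶠ x : ℕ in atTop, ((S ∩ Set.Icc 1 x).ncard : ℝ) ≤ ψ x * Real.log x) ∧
      ∀ D : Set ℕ, 0 ∉ D → (symmDiff D S).Finite → ∀ j k, ∀ H : Finset ℕ, H.Nonempty →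
        Tendsto (fun x : ℕ => (∑ n ∈ range x, w k n * sg (∑ l ∈ H, sco (G j) D (n + l))) / (x : ℝ))
          atTop (𝓝 0) := by
  classical
  set B : ι × Finset ℕ × Finset ℕ × Finset ℕ → PowerSeries (ZMod 2) := fun p =>
    if p.2.1.Nonempty ∧ 0 ∉ p.2.2.1 ∧ 0 ∉ p.2.2.2 then
      P p.2.1 * G p.1 * F p.2.2.2 * (F p.2.2.1)⁻¹ else 1 with hB
  set W : κ × ℕ → ℕ → ℝ := fun p n => if p.2 ≤ n then w p.1 (n - p.2) else 0 with hW
  obtain ⟨S, hS0, hS1, hS2⟩ := signs ψ hψ B
    (fun p => by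
      simp only [hB]
      split_ifs with h
      · exact mul_ne_zero (mul_ne_zero (mul_ne_zero (P_ne_zero _ h.1) (hG _)) (F_ne_zero _ h.2.2))
          (F_inv_ne_zero _ h.2.1)
      · exact one_ne_zero) W
    (fun p n => by
      simp only [hW]
      split_ifs
      · exact hw _ _
      · simp)
  refine ⟨S, hS0, hS1, fun D hD0 hfin j k H hH => ?_⟩
  have hf1 : (S \ D).Finite := hfin.subset fun s hs => Or.inr hs
  have hf2 : (D \ S).Finite := hfin.subset fun s hs => Or.inl hs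
  set F1 := hf1.toFinset with hF1
  set F2 := hf2.toFinset with hF2
  have m1 : ∀ s, s ∈ F1 ↔ s ∈ S ∧ s ∉ D := fun s => by rw [hF1, Set.Finite.mem_toFinset]; rfl
  have m2 : ∀ s, s ∈ F2 ↔ s ∈ D ∧ s ∉ S := fun s => by rw [hF2, Set.Finite.mem_toFinset]; rfl
  have h1 := hS2 (j, H, F1, F2) (k, H.sup id)
  have hBe : B (j, H, F1, F2) = P H * G j * F F2 * (F F1)⁻¹ := by
    simp only [hB]
    rw [if_pos]
    exact ⟨hH, fun h => hS0 ((m1 0).1 h).1, fun h => hD0 ((m2 0).1 h).1⟩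
  rw [hBe] at h1
  have hch : ∀ n, sco (P H * G j * F F2 * (F F1)⁻¹) S n = sco (P H * G j) D n := fun n =>
    sco_finite_change (P H * G j) S D F1 F2 (fun s hs => (m1 s).1 hs) (fun s hs => (m2 s).1 hs)
      (fun s hs1 hs2 => by rw [m1] at hs1; rw [m2] at hs2; tauto) hS0 n
  simp only [hch] at h1
  set m := H.sup id with hm
  have h2 : ∀ x : ℕ, ∑ n ∈ range (x + m), W (k, m) n * sg (sco (P H * G j) D n) =
      ∑ n ∈ range x, w k n * sg (∑ l ∈ H, sco (G j) D (n + l)) := by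
    intro x
    rw [add_comm x, Finset.sum_range_add]
    have e1 : ∑ n ∈ range m, W (k, m) n * sg (sco (P H * G j) D n) = 0 := by
      refine Finset.sum_eq_zero fun n hn => ?_
      have : n < m := Finset.mem_range.1 hn
      simp only [hW]
      rw [if_neg (by omega), zero_mul]
    rw [e1, zero_add]
    refine Finset.sum_congr rfl fun n _ => ?_
    rw [sum_window, ← hm, add_comm m n]
    simp only [hW]
    rw [if_pos (by omega), show n + m - m = n by omega]
  have h3 := (Filter.tendsto_add_atTop_iff_nat m).2 h1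
  have h4 : Tendsto (fun x : ℕ => ((x + m : ℕ) : ℝ) / (x : ℝ)) atTop (𝓝 1) := by
    have h5 : Tendsto (fun x : ℕ => 1 + (m : ℝ) / (x : ℝ)) atTop (𝓝 (1 + 0)) :=
      tendsto_const_nhds.add (tendsto_const_div_atTop_nhds_zero_nat (m : ℝ))
    rw [add_zero] at h5
    refine h5.congr' ?_
    filter_upwards [eventually_gt_atTop 0] with x hx
    have : (x : ℝ) ≠ 0 := by positivity
    push_cast; field_simp
  have h5 := h3.mul h4
  rw [zero_mul] at h5
  refine h5.congr' ?_
  filter_upwards [eventually_gt_atTop 0] with x hx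
  have h6 : (x : ℝ) ≠ 0 := by positivity
  have h7 : ((x + m : ℕ) : ℝ) ≠ 0 := by positivity
  rw [h2]
  field_simp

end Pool.Agent.H866.NE
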