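import Pool.Agent.H866.NE.Block

namespace Pool.Agent.H866.NE

open Finset

theorem card_near (N t E : ℕ) :
    (((range N).filter fun t' => ¬ (t + E ≤ t' ∨ t' + E ≤ t)).card : ℝ) ≤ 2 * E := by
  have h : ((range N).filter fun t' => ¬ (t + E ≤ t' ∨ t' + E ≤ t)) ⊆ Finset.Ico (t + 1 - E) (t + E) := by
    intro x hx
    simp only [Finset.mem_filter, Finset.mem_range, Finset.mem_Ico] at hx ⊢
    omega
  have h2 := Finset.card_le_card h
  rw [Nat.card_Ico] at h2
  have h3 : t + E - (t + 1 - E) ≤ 2 * E := by omega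
  exact_mod_cast h2.trans h3

/-- **second moment of a weighted sum of signs over the block** -/
theorem strong (b g : ℕ → ZMod 2) (K N E : ℕ) (hN : 0 < N) (hE : E ≤ N) (w : ℕ → ℝ)
    (hw : ∀ t, |w t| ≤ 1) :
    ∑ u : Fin K → Fin (2 * N), (∑ t ∈ range N, w t * sg (nw b g u t)) ^ 2 ≤
      (2 * N : ℝ) ^ K * (2 * E * N + (N : ℝ) ^ 2 * (1 - A b E / N) ^ K) := by
  have hN' : (0 : ℝ) < N := by positivity
  have hq : 0 ≤ 1 - A b E / N := by
    have h1 : A b E ≤ N := (A_le b E).trans (by exact_mod_cast hE)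
    have : A b E / N ≤ 1 := by rwa [div_le_one hN']
    linarith
  have e1 : ∀ u : Fin K → Fin (2 * N), (∑ t ∈ range N, w t * sg (nw b g u t)) ^ 2 =
      ∑ t ∈ range N, ∑ t' ∈ range N, w t * w t' * (sg (nw b g u t) * sg (nw b g u t')) := by
    intro u
    rw [sq, Finset.sum_mul_sum]
    refine Finset.sum_congr rfl fun t _ => Finset.sum_congr rfl fun t' _ => by ring
  simp only [e1]
  rw [Finset.sum_comm]
  have e2 : ∀ t ∈ range N, ∑ u : Fin K → Fin (2 * N), ∑ t' ∈ range N,
      w t * w t' * (sg (nw b g u t) * sg (nw b g u t')) ≤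
      (2 * N : ℝ) ^ K * (2 * E + N * (1 - A b E / N) ^ K) := by
    intro t ht
    have ht' : t < N := by simpa using ht
    rw [Finset.sum_comm]
    have e3 : ∀ t' ∈ range N, ∑ u : Fin K → Fin (2 * N),
        w t * w t' * (sg (nw b g u t) * sg (nw b g u t')) ≤
        (2 * N : ℝ) ^ K * ((if ¬ (t + E ≤ t' ∨ t' + E ≤ t) then 1 else 0) + (1 - A b E / N) ^ K) := by
      intro t' ht2
      have ht2' : t' < N := by simpa using ht2
      rw [← Finset.mul_sum, sum_XX b g K N t t' hN ht' ht2']
      have hc0 := c2_nonneg b N t t' hN ht' ht2'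
      have hck : 0 ≤ c2 b N t t' ^ K := pow_nonneg hc0 K
      have hs : |w t * w t' * (sg (g t) * sg (g t'))| ≤ 1 := by
        rw [abs_mul, abs_mul, abs_mul, abs_sg, abs_sg]
        have := mul_le_mul (hw t) (hw t') (abs_nonneg _) zero_le_one
        linarith
      have h1 : w t * w t' * (sg (g t) * sg (g t')) * c2 b N t t' ^ K ≤ c2 b N t t' ^ K := by
        have := (le_abs_self _).trans hs
        nlinarith
      have h2 : c2 b N t t' ^ K ≤
          (if ¬ (t + E ≤ t' ∨ t' + E ≤ t) then 1 else 0) + (1 - A b E / N) ^ K := by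
        by_cases hn : t + E ≤ t' ∨ t' + E ≤ t
        · rw [if_neg (not_not.2 hn), zero_add]
          exact pow_le_pow_left₀ hc0 (c2_le b N t t' E hN ht' ht2' hn) K
        · rw [if_pos hn]
          have := pow_le_one₀ (n := K) hc0 (c2_le_one b N t t' hN ht' ht2')
          have := pow_nonneg hq K
          linarith
      calc w t * w t' * ((2 * (N : ℝ)) ^ K * (sg (g t) * sg (g t') * c2 b N t t' ^ K))
          = (2 * (N : ℝ)) ^ K * (w t * w t' * (sg (g t) * sg (g t')) * c2 b N t t' ^ K) := by ring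
        _ ≤ _ := mul_le_mul_of_nonneg_left (h1.trans h2) (by positivity)
    refine (Finset.sum_le_sum e3).trans ?_
    rw [← Finset.mul_sum, Finset.sum_add_distrib, Finset.sum_ite, Finset.sum_const_zero, add_zero,
      Finset.sum_const, Finset.sum_const, nsmul_eq_mul, nsmul_eq_mul, mul_one, Finset.card_range]
    have := card_near N t E
    refine mul_le_mul_of_nonneg_left (by linarith) (by positivity)
  refine (Finset.sum_le_sum e2).trans ?_
  rw [Finset.sum_const, nsmul_eq_mul, Finset.card_range]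
  apply le_of_eq; ring

theorem abs_pow_sub_le (x y : ℝ) (hx : 0 ≤ x) (hx1 : x ≤ 1) (hy : 0 ≤ y) (hy1 : y ≤ 1) (K : ℕ) :
    |x ^ K - y ^ K| ≤ K * |x - y| := by
  induction K with
  | zero => simp
  | succ K ih =>
    have : x ^ (K + 1) - y ^ (K + 1) = (x ^ K - y ^ K) * x + y ^ K * (x - y) := by ring
    rw [this]
    refine (abs_add_le _ _).trans ?_
    rw [abs_mul, abs_mul, abs_of_nonneg hx, abs_of_nonneg (pow_nonneg hy K)]
    have h1 : |x ^ K - y ^ K| * x ≤ K * |x - y| * 1 := mul_le_mul ih hx1 hx (by positivity)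
    have h2 : y ^ K * |x - y| ≤ 1 * |x - y| :=
      mul_le_mul_of_nonneg_right (pow_le_one₀ hy hy1) (abs_nonneg _)
    push_cast
    linarith

theorem c1_nonneg (b : ℕ → ZMod 2) (N t : ℕ) (hN : 0 < N) (ht : t < N) : 0 ≤ c1 b N t := by
  have hN' : (0 : ℝ) < N := by positivity
  have h1 : A b (t + 1) ≤ N := (A_le b (t + 1)).trans (by exact_mod_cast ht)
  have : A b (t + 1) / N ≤ 1 := by rwa [div_le_one hN']
  unfold c1; linarith

theorem c1_le_one (b : ℕ → ZMod 2) (N t : ℕ) : c1 b N t ≤ 1 := by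
  have : 0 ≤ A b (t + 1) / N := div_nonneg (A_nonneg _ _) (by positivity)
  unfold c1; linarith

theorem sum_ind_sh_left (b : ℕ → ZMod 2) (N v : ℕ) :
    ∑ t ∈ range N, ind (sh b t v) ≤ if v < N then A b N else 0 := by
  split_ifs with hv
  · have e : ∑ t ∈ range N, ind (sh b t v) =
        ∑ t ∈ (range N).filter (fun t => v ≤ t), ind (b (t - v)) := by
      rw [Finset.sum_filter]
      refine Finset.sum_congr rfl fun t _ => ?_
      unfold sh
      split_ifs
      · rfl
      · exact ind_zero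
    rw [e]
    have e2 : ∑ t ∈ (range N).filter (fun t => v ≤ t), ind (b (t - v)) =
        ∑ m ∈ ((range N).filter (fun t => v ≤ t)).image (fun t => t - v), ind (b m) := by
      rw [Finset.sum_image]
      intro x hx y hy hxy
      simp only [Finset.coe_filter, Finset.mem_range, Set.mem_ofPred_eq] at hx hy
      dsimp only at hxy
      omega
    rw [e2]
    unfold A
    refine Finset.sum_le_sum_of_subset_of_nonneg ?_ fun _ _ _ => ind_nonneg _
    intro m hm
    simp only [Finset.mem_image, Finset.mem_filter, Finset.mem_range] at hm ⊢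
    obtain ⟨t, ht, rfl⟩ := hm
    omega
  · apply le_of_eq
    refine Finset.sum_eq_zero fun t ht => ?_
    have : t < N := by simpa using ht
    unfold sh
    rw [if_neg (by omega), ind_zero]

theorem sum_I (b : ℕ → ZMod 2) (N : ℕ) :
    ∑ t ∈ range N, ∑ t' ∈ range N, I b (2 * N) t t' ≤ N * A b N ^ 2 := by
  unfold I
  have e : ∑ t ∈ range N, ∑ t' ∈ range N, ∑ v ∈ range (2 * N), ind (sh b t v) * ind (sh b t' v) =
      ∑ v ∈ range (2 * N), (∑ t ∈ range N, ind (sh b t v)) ^ 2 := by
    have : ∀ t ∈ range N, ∑ t' ∈ range N, ∑ v ∈ range (2 * N), ind (sh b t v) * ind (sh b t' v) =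
        ∑ v ∈ range (2 * N), ∑ t' ∈ range N, ind (sh b t v) * ind (sh b t' v) := fun t _ =>
      Finset.sum_comm
    rw [Finset.sum_congr rfl this, Finset.sum_comm]
    refine Finset.sum_congr rfl fun v _ => ?_
    rw [sq, Finset.sum_mul_sum]
  rw [e]
  have h : ∀ v ∈ range (2 * N), (∑ t ∈ range N, ind (sh b t v)) ^ 2 ≤
      if v < N then A b N ^ 2 else 0 := by
    intro v _
    have h0 : 0 ≤ ∑ t ∈ range N, ind (sh b t v) := Finset.sum_nonneg fun _ _ => ind_nonneg _
    have h1 := sum_ind_sh_left b N v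
    split_ifs at h1 ⊢ with hv
    · exact pow_le_pow_left₀ h0 h1 2
    · have : ∑ t ∈ range N, ind (sh b t v) = 0 := le_antisymm h1 h0
      rw [this]; norm_num
  refine (Finset.sum_le_sum h).trans ?_
  rw [← Finset.sum_filter, Finset.sum_const, nsmul_eq_mul]
  have hc : ((range (2 * N)).filter (fun v => v < N)).card ≤ N := by
    calc ((range (2 * N)).filter (fun v => v < N)).card ≤ (range N).card := by
          apply Finset.card_le_card
          intro x hx
          simp only [Finset.mem_filter, Finset.mem_range] at hx ⊢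
          exact hx.2
      _ = N := Finset.card_range N
  exact mul_le_mul_of_nonneg_right (by exact_mod_cast hc) (by positivity)

/-- mean of the sum of the signs -/
noncomputable def mean (b g : ℕ → ZMod 2) (K N : ℕ) : ℝ := ∑ t ∈ range N, sg (g t) * c1 b N t ^ K

/-- **variance of the sum of the signs** -/
theorem variance (b g : ℕ → ZMod 2) (K N : ℕ) (hN : 0 < N) :
    ∑ u : Fin K → Fin (2 * N), (∑ t ∈ range N, sg (nw b g u t) - mean b g K N) ^ 2 ≤
      (2 * N : ℝ) ^ K * (3 * K * A b N ^ 2) := by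
  have hN' : (0 : ℝ) < N := by positivity
  set m := mean b g K N with hm
  have hcard : ((Fintype.card (Fin K → Fin (2 * N)) : ℕ) : ℝ) = (2 * N : ℝ) ^ K := by
    simp
  have s1 : ∑ u : Fin K → Fin (2 * N), ∑ t ∈ range N, sg (nw b g u t) = (2 * N : ℝ) ^ K * m := by
    rw [Finset.sum_comm, hm]
    unfold mean
    rw [Finset.mul_sum]
    refine Finset.sum_congr rfl fun t ht => ?_
    have ht' : t < N := by simpa using ht
    rw [sum_X b g K N t hN ht']
  have s2 : ∑ u : Fin K → Fin (2 * N), (∑ t ∈ range N, sg (nw b g u t)) ^ 2 =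
      (2 * N : ℝ) ^ K * ∑ t ∈ range N, ∑ t' ∈ range N, sg (g t) * sg (g t') * c2 b N t t' ^ K := by
    have e1 : ∀ u : Fin K → Fin (2 * N), (∑ t ∈ range N, sg (nw b g u t)) ^ 2 =
        ∑ t ∈ range N, ∑ t' ∈ range N, (sg (nw b g u t) * sg (nw b g u t')) := by
      intro u
      rw [sq, Finset.sum_mul_sum]
    simp only [e1]
    rw [Finset.sum_comm, Finset.mul_sum]
    refine Finset.sum_congr rfl fun t ht => ?_
    have ht' : t < N := by simpa using ht
    rw [Finset.sum_comm, Finset.mul_sum]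
    refine Finset.sum_congr rfl fun t' ht2 => ?_
    have ht2' : t' < N := by simpa using ht2
    rw [sum_XX b g K N t t' hN ht' ht2']
  have e3 : ∀ u : Fin K → Fin (2 * N), (∑ t ∈ range N, sg (nw b g u t) - m) ^ 2 =
      (∑ t ∈ range N, sg (nw b g u t)) ^ 2 - 2 * m * (∑ t ∈ range N, sg (nw b g u t)) + m ^ 2 := by
    intro u; ring
  simp only [e3, Finset.sum_add_distrib, Finset.sum_sub_distrib, ← Finset.mul_sum, s1, s2]
  rw [Finset.sum_const, Finset.card_univ, nsmul_eq_mul, hcard]
  have hm2 : m ^ 2 = ∑ t ∈ range N, ∑ t' ∈ range N, sg (g t) * sg (g t') *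
      (c1 b N t * c1 b N t') ^ K := by
    rw [hm]; unfold mean
    rw [sq, Finset.sum_mul_sum]
    refine Finset.sum_congr rfl fun t _ => Finset.sum_congr rfl fun t' _ => ?_
    rw [mul_pow]; ring
  have key : (∑ t ∈ range N, ∑ t' ∈ range N, sg (g t) * sg (g t') * c2 b N t t' ^ K) - m ^ 2 ≤
      3 * K * A b N ^ 2 := by
    rw [hm2, ← Finset.sum_sub_distrib]
    simp only [← Finset.sum_sub_distrib]
    have h1 : ∀ t ∈ range N, ∀ t' ∈ range N,
        sg (g t) * sg (g t') * c2 b N t t' ^ K -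
          sg (g t) * sg (g t') * (c1 b N t * c1 b N t') ^ K ≤
        K * (2 / N * I b (2 * N) t t' + A b N * A b N / (N : ℝ) ^ 2) := by
      intro t ht t' ht2
      have ht' : t < N := by simpa using ht
      have ht2' : t' < N := by simpa using ht2
      have ha := c1_nonneg b N t hN ht'
      have ha' := c1_nonneg b N t' hN ht2'
      have h2 := abs_pow_sub_le (c2 b N t t') (c1 b N t * c1 b N t')
        (c2_nonneg b N t t' hN ht' ht2') (c2_le_one b N t t' hN ht' ht2') (mul_nonneg ha ha')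
        (mul_le_one₀ (c1_le_one _ _ _) ha' (c1_le_one _ _ _)) K
      have h3 : c2 b N t t' - c1 b N t * c1 b N t' =
          2 / N * I b (2 * N) t t' - A b (t + 1) * A b (t' + 1) / (N : ℝ) ^ 2 := by
        unfold c2 c1; field_simp; ring
      have h4 : |c2 b N t t' - c1 b N t * c1 b N t'| ≤
          2 / N * I b (2 * N) t t' + A b N * A b N / (N : ℝ) ^ 2 := by
        rw [h3]
        have p1 : 0 ≤ 2 / N * I b (2 * N) t t' := mul_nonneg (by positivity) (I_nonneg _ _ _ _)
        have p2 : 0 ≤ A b (t + 1) * A b (t' + 1) / (N : ℝ) ^ 2 :=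
          div_nonneg (mul_nonneg (A_nonneg _ _) (A_nonneg _ _)) (by positivity)
        have p3 : A b (t + 1) * A b (t' + 1) / (N : ℝ) ^ 2 ≤ A b N * A b N / (N : ℝ) ^ 2 := by
          apply div_le_div_of_nonneg_right _ (by positivity)
          exact mul_le_mul (A_mono b ht') (A_mono b ht2') (A_nonneg _ _) (A_nonneg _ _)
        rw [abs_le]; constructor <;> linarith
      have h5 : sg (g t) * sg (g t') * c2 b N t t' ^ K -
          sg (g t) * sg (g t') * (c1 b N t * c1 b N t') ^ K ≤
          |c2 b N t t' ^ K - (c1 b N t * c1 b N t') ^ K| := by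
        rw [← mul_sub]
        refine (le_abs_self _).trans ?_
        rw [abs_mul, abs_mul, abs_sg, abs_sg]; simp
      exact h5.trans (h2.trans (mul_le_mul_of_nonneg_left h4 (by positivity)))
    refine (Finset.sum_le_sum fun t ht => Finset.sum_le_sum fun t' ht' => h1 t ht t' ht').trans ?_
    simp only [← Finset.mul_sum, Finset.sum_add_distrib]
    simp only [Finset.sum_const, Finset.card_range, nsmul_eq_mul]
    have hI := sum_I b N
    have h6 : 2 / (N : ℝ) * ∑ t ∈ range N, ∑ t' ∈ range N, I b (2 * N) t t' ≤ 2 * A b N ^ 2 := by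
      calc 2 / (N : ℝ) * ∑ t ∈ range N, ∑ t' ∈ range N, I b (2 * N) t t'
          ≤ 2 / (N : ℝ) * (N * A b N ^ 2) := mul_le_mul_of_nonneg_left hI (by positivity)
        _ = 2 * A b N ^ 2 := by field_simp
    have h7 : (N : ℝ) * (N * (A b N * A b N / (N : ℝ) ^ 2)) = A b N ^ 2 := by field_simp
    rw [h7]
    have : (K : ℝ) * (2 / (N : ℝ) * ∑ t ∈ range N, ∑ t' ∈ range N, I b (2 * N) t t' + A b N ^ 2) ≤
        K * (3 * A b N ^ 2) := mul_le_mul_of_nonneg_left (by linarith) (by positivity)
    linarith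
  have hpos : (0 : ℝ) ≤ (2 * N : ℝ) ^ K := by positivity
  have := mul_le_mul_of_nonneg_left key hpos
  nlinarith [this]

/-- `(1 - x) ^ K ≤ 1 - K x / 2` for `0 ≤ x`, `K x ≤ 1` -/
theorem one_sub_pow_le (x : ℝ) (K : ℕ) (hx : 0 ≤ x) (hx1 : x ≤ 1) (hK : K * x ≤ 1) :
    (1 - x) ^ K ≤ 1 - K * x / 2 := by
  have h1 : (1 - x) ^ K * (1 + K * x) ≤ 1 := by
    have h2 : 1 + K * x ≤ (1 + x) ^ K := one_add_mul_le_pow (by linarith) K
    calc (1 - x) ^ K * (1 + K * x) ≤ (1 - x) ^ K * (1 + x) ^ K :=
          mul_le_mul_of_nonneg_left h2 (pow_nonneg (by linarith) K)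
      _ = (1 - x ^ 2) ^ K := by rw [← mul_pow]; ring
      _ ≤ 1 := pow_le_one₀ (by nlinarith) (by nlinarith)
  have hy : 0 ≤ K * x := by positivity
  by_contra hcon
  push Not at hcon
  have : (1 - K * x / 2) * (1 + K * x) < (1 - x) ^ K * (1 + K * x) :=
    mul_lt_mul_of_pos_right hcon (by linarith)
  nlinarith

theorem mean_le (b g : ℕ → ZMod 2) (K N h : ℕ) (hN : 0 < N) (hh : 2 * h ≤ N)
    (hK : K * A b h ≤ N) : mean b g K N ≤ N - K * A b h / 4 := by
  have hN' : (0 : ℝ) < N := by positivity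
  have hA : A b h ≤ N := (A_le b h).trans (by exact_mod_cast (by omega : h ≤ N))
  have h0 : ∀ t ∈ range N, sg (g t) * c1 b N t ^ K ≤
      1 - (if h ≤ t then K * (A b h / N) / 2 else 0) := by
    intro t ht
    have ht' : t < N := by simpa using ht
    have hc := c1_nonneg b N t hN ht'
    have h1 : sg (g t) * c1 b N t ^ K ≤ c1 b N t ^ K := by
      have := pow_nonneg hc K
      have := sg_le_one (g t)
      nlinarith
    refine h1.trans ?_
    split_ifs with hht
    · have h2 : c1 b N t ≤ 1 - A b h / N := by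
        unfold c1
        have := div_le_div_of_nonneg_right (A_mono b (show h ≤ t + 1 by omega)) hN'.le
        linarith
      refine (pow_le_pow_left₀ hc h2 K).trans ?_
      refine one_sub_pow_le _ _ (div_nonneg (A_nonneg _ _) hN'.le) ?_ ?_
      · rwa [div_le_one hN']
      · rw [← mul_div_assoc, div_le_one hN']; exact hK
    · rw [sub_zero]; exact pow_le_one₀ hc (c1_le_one _ _ _)
  unfold mean
  refine (Finset.sum_le_sum h0).trans ?_
  rw [Finset.sum_sub_distrib, ← Finset.sum_filter, Finset.sum_const, Finset.sum_const,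
    Finset.card_range, nsmul_eq_mul, nsmul_eq_mul, mul_one]
  have hc : N - h ≤ ((range N).filter (fun t => h ≤ t)).card := by
    have : Finset.Ico h N ⊆ (range N).filter (fun t => h ≤ t) := by
      intro x hx
      simp only [Finset.mem_filter, Finset.mem_range, Finset.mem_Ico] at hx ⊢
      omega
    have := Finset.card_le_card this
    rwa [Nat.card_Ico] at this
  have hc2 : (N : ℝ) / 2 ≤ ((range N).filter (fun t => h ≤ t)).card := by
    have h3 : ((N - h : ℕ) : ℝ) ≤ ((range N).filter (fun t => h ≤ t)).card := by exact_mod_cast hc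
    rw [Nat.cast_sub (by omega)] at h3
    have h4 : (2 * h : ℝ) ≤ N := by exact_mod_cast hh
    linarith
  have hq : 0 ≤ (K : ℝ) * (A b h / N) / 2 := by
    have := A_nonneg b h
    positivity
  have := mul_le_mul_of_nonneg_right hc2 hq
  have e : (N : ℝ) / 2 * (K * (A b h / N) / 2) = K * A b h / 4 := by field_simp; ring
  linarith

/-- few ones in the block force a large deviation -/
theorem growth_dev (b g : ℕ → ZMod 2) (K N h : ℕ) (hN : 0 < N) (hh : 2 * h ≤ N)
    (hK : K * A b h ≤ N) (u : Fin K → Fin (2 * N))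
    (hu : ∑ t ∈ range N, ind (nw b g u t) < K * A b h / 16) :
    (K * A b h / 8) ^ 2 ≤ (∑ t ∈ range N, sg (nw b g u t) - mean b g K N) ^ 2 := by
  have h1 := mean_le b g K N h hN hh hK
  have h2 : ∑ t ∈ range N, sg (nw b g u t) = N - 2 * ∑ t ∈ range N, ind (nw b g u t) := by
    simp only [sg_eq, Finset.sum_sub_distrib, ← Finset.mul_sum]
    simp
  have h3 : 0 ≤ K * A b h / 8 := by
    have := A_nonneg b h; positivity
  apply pow_le_pow_left₀ h3
  rw [h2]
  linarith

end Pool.Agent.H866.NE
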