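import Pool.Agent.H866.NE.Step

namespace Pool.Agent.H866.NE

open Finset PowerSeries

/-- the product `∏ (1 + X ^ s)` over a finite set -/
noncomputable def F (T : Finset ℕ) : PowerSeries (ZMod 2) := ∏ s ∈ T, (1 + X ^ s)

/-- the sequence of the coefficients -/
noncomputable def co (B : PowerSeries (ZMod 2)) (n : ℕ) : ZMod 2 := coeff n B

theorem co_mul_one_add (B : PowerSeries (ZMod 2)) (s n : ℕ) :
    co (B * (1 + X ^ s)) n = co B n + if s ≤ n then co B (n - s) else 0 := by
  unfold co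
  rw [mul_add, mul_one, map_add, coeff_mul_X_pow']

theorem co_mul_F_low (B : PowerSeries (ZMod 2)) (T : Finset ℕ) (N : ℕ) (hT : ∀ s ∈ T, N ≤ s) (n : ℕ)
    (hn : n < N) : co (B * F T) n = co B n := by
  classical
  induction T using Finset.induction_on with
  | empty => simp [F]
  | insert a s ha ih =>
    have e : B * F (insert a s) = (B * F s) * (1 + X ^ a) := by
      unfold F; rw [Finset.prod_insert ha]; ring
    rw [e, co_mul_one_add, ih fun s hs => hT s (Finset.mem_insert_of_mem hs)]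
    have := hT a (Finset.mem_insert_self _ _)
    rw [if_neg (by omega), add_zero]

theorem co_mul_F (B : PowerSeries (ZMod 2)) (T : Finset ℕ) (N : ℕ) (hT : ∀ s ∈ T, N ≤ s) (n : ℕ)
    (hn : n < 2 * N) :
    co (B * F T) n = co B n + ∑ s ∈ T, if s ≤ n then co B (n - s) else 0 := by
  classical
  induction T using Finset.induction_on with
  | empty => simp [F]
  | insert a s ha ih =>
    have e : B * F (insert a s) = (B * F s) * (1 + X ^ a) := by
      unfold F; rw [Finset.prod_insert ha]; ring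
    have hs : ∀ x ∈ s, N ≤ x := fun x hx => hT x (Finset.mem_insert_of_mem hx)
    have haN := hT a (Finset.mem_insert_self _ _)
    rw [e, co_mul_one_add, ih hs, Finset.sum_insert ha]
    split_ifs with h
    · rw [co_mul_F_low B s N hs (n - a) (by omega)]; ring
    · ring

theorem co_F_zero (B : PowerSeries (ZMod 2)) (T : Finset ℕ) (hT : 0 ∉ T) :
    co (B * F T) 0 = co B 0 := by
  refine co_mul_F_low B T 1 (fun s hs => ?_) 0 one_pos
  rcases Nat.eq_zero_or_pos s with h | h
  · subst h; exact absurd hs hT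
  · exact h

/-- the set of the new elements -/
def Tof (N : ℕ) {K : ℕ} (u : Fin K → Fin (2 * N)) : Finset ℕ :=
  (Finset.Ico N (2 * N)).filter fun s =>
    Odd ((Finset.univ.filter fun i => ((u i : ℕ) + N) = s).card)

theorem Tof_card (N : ℕ) {K : ℕ} (u : Fin K → Fin (2 * N)) : (Tof N u).card ≤ K := by
  have : Tof N u ⊆ Finset.univ.image fun i => ((u i : ℕ) + N) := by
    intro s hs
    unfold Tof at hs
    rw [Finset.mem_filter] at hs
    have h := hs.2.pos
    rw [Finset.card_pos] at h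
    obtain ⟨i, hi⟩ := h
    rw [Finset.mem_filter] at hi
    rw [Finset.mem_image]
    exact ⟨i, Finset.mem_univ _, hi.2⟩
  refine (Finset.card_le_card this).trans ?_
  refine Finset.card_image_le.trans ?_
  simp

theorem nsmul_zmod2 (k : ℕ) (a : ZMod 2) : k • a = if Odd k then a else 0 := by
  split_ifs with h
  · obtain ⟨j, rfl⟩ := h
    rw [add_smul, one_smul, mul_smul, two_nsmul, ← smul_add, CharTwo.add_self_eq_zero]
    simp
  · rw [Nat.not_odd_iff_even] at h
    obtain ⟨j, rfl⟩ := h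
    rw [add_smul, CharTwo.add_self_eq_zero]

theorem sum_range_two_mul (f : ℕ → ZMod 2) (N : ℕ) :
    ∑ v ∈ range (2 * N), f v = ∑ v ∈ range N, f v + ∑ v ∈ range N, f (N + v) := by
  rw [two_mul, Finset.sum_range_add]

theorem sum_sh_eq (b : ℕ → ZMod 2) (N : ℕ) {K : ℕ} (u : Fin K → Fin (2 * N)) (t : ℕ) (ht : t < N) :
    ∑ i, sh b t (u i) = ∑ s ∈ Tof N u, if s ≤ N + t then b (N + t - s) else 0 := by
  have h1 : ∑ i, sh b t (u i) = ∑ v ∈ range (2 * N),
      ∑ i ∈ Finset.univ.filter (fun i => ((u i : ℕ)) = v), sh b t (u i) :=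
    (Finset.sum_fiberwise_of_maps_to (fun i _ => Finset.mem_range.2 (u i).2) _).symm
  rw [h1]
  have h2 : ∀ v ∈ range (2 * N), ∑ i ∈ Finset.univ.filter (fun i => ((u i : ℕ)) = v), sh b t (u i) =
      if Odd ((Finset.univ.filter (fun i => ((u i : ℕ)) = v)).card) then sh b t v else 0 := by
    intro v _
    rw [← nsmul_zmod2, ← Finset.sum_const]
    refine Finset.sum_congr rfl fun i hi => ?_
    rw [(Finset.mem_filter.1 hi).2]
  rw [Finset.sum_congr rfl h2, sum_range_two_mul]
  have h3 : ∑ x ∈ range N, (if Odd ((Finset.univ.filter (fun i => ((u i : ℕ)) = N + x)).card) then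
      sh b t (N + x) else 0) = 0 := by
    refine Finset.sum_eq_zero fun x _ => ?_
    have : sh b t (N + x) = 0 := by unfold sh; rw [if_neg (by omega)]
    rw [this, ite_self]
  rw [h3, add_zero]
  unfold Tof
  rw [Finset.sum_filter, Finset.sum_Ico_eq_sum_range]
  have e : 2 * N - N = N := by omega
  rw [e]
  refine Finset.sum_congr rfl fun v _ => ?_
  have e2 : (Finset.univ.filter fun i => ((u i : ℕ) + N) = N + v) =
      Finset.univ.filter fun i => ((u i : ℕ)) = v := by
    refine Finset.filter_congr fun i _ => ?_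
    omega
  rw [e2]
  congr 1
  unfold sh
  by_cases h : v ≤ t
  · rw [if_pos h, if_pos (by omega)]; congr 1; omega
  · rw [if_neg h, if_neg (by omega)]

theorem nw_eq (B : PowerSeries (ZMod 2)) (N : ℕ) {K : ℕ} (u : Fin K → Fin (2 * N)) (t : ℕ)
    (ht : t < N) : nw (co B) (fun t => co B (N + t)) u t = co (B * F (Tof N u)) (N + t) := by
  unfold nw
  rw [sum_sh_eq (co B) N u t ht, co_mul_F B (Tof N u) N ?_ (N + t) (by omega)]
  intro s hs
  unfold Tof at hs
  rw [Finset.mem_filter, Finset.mem_Ico] at hs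
  exact hs.1.1

theorem A_split (b : ℕ → ZMod 2) (N : ℕ) :
    A b (2 * N) = A b N + ∑ t ∈ range N, ind (b (N + t)) := by
  unfold A; rw [two_mul, Finset.sum_range_add]

theorem A_congr {b c : ℕ → ZMod 2} {N : ℕ} (h : ∀ n < N, b n = c n) : A b N = A c N := by
  unfold A
  exact Finset.sum_congr rfl fun m hm => by rw [h m (Finset.mem_range.1 hm)]

/-- **one block, in terms of series** -/
theorem step_series (m m' : ℕ) (lam κ : ℝ) (hlam : 0 < lam) (hκ : 0 < κ)
    (hκm : κ * (40000 * (m + 1)) ≤ 1) :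
    ∃ e K : ℕ, ∀ J : ℕ, e ≤ J → 1 ≤ J → ∀ (B : ℕ → PowerSeries (ZMod 2)) (w : ℕ → ℕ → ℝ),
      (∀ i, co (B i) 0 ≠ 0) → (∀ k t, |w k t| ≤ 1) →
      ∃ T : Finset ℕ, (∀ s ∈ T, 2 ^ J ≤ s ∧ s < 2 ^ (J + 1)) ∧ T.card ≤ K ∧ ∀ i < m,
        (A (co (B i)) (2 ^ (J - 1)) ≤ κ * 2 ^ (J - 1) →
          8 * A (co (B i)) (2 ^ (J - 1)) ≤ A (co (B i * F T)) (2 ^ (J + 1))) ∧
        (κ / 4 * 2 ^ (J - e) ≤ A (co (B i)) (2 ^ (J - e)) → ∀ k < m',
          |∑ t ∈ range (2 ^ J), w k t * sg (co (B i * F T) (2 ^ J + t))| ≤ lam * 2 ^ J) := by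
  obtain ⟨e, K, h⟩ := step m m' lam κ hlam hκ hκm
  refine ⟨e, K, fun J he hJ B w hB hw => ?_⟩
  obtain ⟨u, hu⟩ := h J he hJ (fun i => co (B i)) w hB hw
  refine ⟨Tof (2 ^ J) u, ?_, Tof_card _ _, fun i hi => ?_⟩
  · intro s hs
    unfold Tof at hs
    rw [Finset.mem_filter, Finset.mem_Ico] at hs
    rw [pow_succ']
    exact hs.1
  · obtain ⟨h1, h2⟩ := hu i hi
    have hlow : ∀ s ∈ Tof (2 ^ J) u, 2 ^ J ≤ s := by
      intro s hs
      unfold Tof at hs
      rw [Finset.mem_filter, Finset.mem_Ico] at hs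
      exact hs.1.1
    refine ⟨fun hA => ?_, fun hA k hk => ?_⟩
    · have e1 : A (co (B i * F (Tof (2 ^ J) u))) (2 ^ (J + 1)) = A (co (B i)) (2 ^ J) +
          ∑ t ∈ range (2 ^ J), ind (nw (co (B i)) (fun t => co (B i) (2 ^ J + t)) u t) := by
        rw [pow_succ', A_split]
        congr 1
        · exact A_congr fun n hn => co_mul_F_low _ _ _ hlow n hn
        · refine Finset.sum_congr rfl fun t ht => ?_
          rw [nw_eq (B i) (2 ^ J) u t (Finset.mem_range.1 ht)]
      rw [e1]
      have p1 := A_nonneg (co (B i)) (2 ^ J)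
      have p2 : 0 ≤ ∑ t ∈ range (2 ^ J), ind (nw (co (B i)) (fun t => co (B i) (2 ^ J + t)) u t) :=
        Finset.sum_nonneg fun _ _ => ind_nonneg _
      rcases h1 hA with h | h <;> linarith
    · have := h2 hA k hk
      refine le_trans (le_of_eq ?_) this
      congr 1
      refine Finset.sum_congr rfl fun t ht => ?_
      rw [nw_eq (B i) (2 ^ J) u t (Finset.mem_range.1 ht)]

/-- the coefficients of `B ∏_{s ∈ S} (1 + X ^ s)` for an arbitrary set `S` -/
noncomputable def sco (B : PowerSeries (ZMod 2)) (S : Set ℕ) (n : ℕ) : ZMod 2 := by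
  classical
  exact co (B * F ((Finset.range (n + 1)).filter fun s => s ∈ S)) n

theorem F_union {S T : Finset ℕ} (h : Disjoint S T) : F (S ∪ T) = F S * F T := by
  unfold F; rw [Finset.prod_union h]

theorem sco_eq (B : PowerSeries (ZMod 2)) (S : Set ℕ) (T : Finset ℕ) (n : ℕ)
    (h : ∀ s ≤ n, s ∈ T ↔ s ∈ S) : sco B S n = co (B * F T) n := by
  classical
  unfold sco
  have e : T = (Finset.range (n + 1)).filter (fun s => s ∈ S) ∪ T.filter (fun s => n < s) := by
    ext s
    simp only [Finset.mem_union, Finset.mem_filter, Finset.mem_range]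
    constructor
    · intro hs
      by_cases hn : s ≤ n
      · exact Or.inl ⟨by omega, (h s hn).1 hs⟩
      · exact Or.inr ⟨hs, by omega⟩
    · rintro (⟨h1, h2⟩ | ⟨h1, _⟩)
      · exact (h s (by omega)).2 h2
      · exact h1
  have hd : Disjoint ((Finset.range (n + 1)).filter (fun s => s ∈ S)) (T.filter (fun s => n < s)) := by
    rw [Finset.disjoint_left]
    intro s h1 h2
    simp only [Finset.mem_filter, Finset.mem_range] at h1 h2
    omega
  conv_rhs => rw [e]
  rw [F_union hd, ← mul_assoc]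
  refine (co_mul_F_low (B * F ((Finset.range (n + 1)).filter fun s => s ∈ S)) _ (n + 1) ?_ n
    (by omega)).symm
  intro s hs
  simp only [Finset.mem_filter] at hs
  omega

end Pool.Agent.H866.NE
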