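import Pool.Agent.H866.NE.Moments

namespace Pool.Agent.H866.NE

open Finset

theorem nw_append_left (b g : ℕ → ZMod 2) {K1 K2 M : ℕ} (u1 : Fin K1 → Fin M) (u2 : Fin K2 → Fin M)
    (t : ℕ) : nw b g (Fin.append u1 u2) t = nw b (fun t => g t + ∑ i, sh b t (u2 i)) u1 t := by
  unfold nw
  rw [Fin.sum_univ_add]
  simp only [Fin.append_left, Fin.append_right]
  ring

theorem nw_append_right (b g : ℕ → ZMod 2) {K1 K2 M : ℕ} (u1 : Fin K1 → Fin M) (u2 : Fin K2 → Fin M)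
    (t : ℕ) : nw b g (Fin.append u1 u2) t = nw b (fun t => g t + ∑ i, sh b t (u1 i)) u2 t := by
  unfold nw
  rw [Fin.sum_univ_add]
  simp only [Fin.append_left, Fin.append_right]
  ring

theorem one_le_A (b : ℕ → ZMod 2) (h0 : b 0 ≠ 0) (d : ℕ) (hd : 0 < d) : 1 ≤ A b d := by
  have h1 : A b 1 ≤ A b d := A_mono b hd
  have h2 : A b 1 = 1 := by simp [A, ind, h0]
  linarith

/-- the total cost has mean less than one, so it is less than one somewhere -/
theorem exists_lt_one {α β : Type*} [Fintype α] [Fintype β] (Φ : α → β → ℝ)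
    (h : ∑ a, ∑ c, Φ a c < Fintype.card α * Fintype.card β) : ∃ a c, Φ a c < 1 := by
  by_contra hcon
  push Not at hcon
  have : (Fintype.card α * Fintype.card β : ℝ) ≤ ∑ a, ∑ c, Φ a c := by
    calc (Fintype.card α * Fintype.card β : ℝ) = ∑ _a : α, ∑ _c : β, (1 : ℝ) := by simp
      _ ≤ _ := Finset.sum_le_sum fun a _ => Finset.sum_le_sum fun c _ => hcon a c
  linarith

open Classical in
/-- growth cost -/
noncomputable def Gc (b g : ℕ → ZMod 2) (κ : ℝ) (N h : ℕ) {K1 K2 : ℕ} (u1 : Fin K1 → Fin (2 * N))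
    (u2 : Fin K2 → Fin (2 * N)) : ℝ :=
  if A b h ≤ κ * h ∧ A b N < 8 * A b h then
    (∑ t ∈ range N, sg (nw b (fun t => g t + ∑ i, sh b t (u2 i)) u1 t) -
      mean b (fun t => g t + ∑ i, sh b t (u2 i)) K1 N) ^ 2 / (K1 * A b h / 8) ^ 2
  else 0

open Classical in
/-- cost of a weighted sum -/
noncomputable def Sc (b g : ℕ → ZMod 2) (w : ℕ → ℝ) (κ lam : ℝ) (N E : ℕ) {K1 K2 : ℕ}
    (u1 : Fin K1 → Fin (2 * N)) (u2 : Fin K2 → Fin (2 * N)) : ℝ :=
  if κ / 4 * E ≤ A b E then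
    (∑ t ∈ range N, w t * sg (nw b (fun t => g t + ∑ i, sh b t (u1 i)) u2 t)) ^ 2 / (lam * N) ^ 2
  else 0

theorem Gc_nonneg (b g : ℕ → ZMod 2) (κ : ℝ) (N h : ℕ) {K1 K2 : ℕ} (u1 : Fin K1 → Fin (2 * N))
    (u2 : Fin K2 → Fin (2 * N)) : 0 ≤ Gc b g κ N h u1 u2 := by
  unfold Gc; split_ifs <;> positivity

theorem Sc_nonneg (b g : ℕ → ZMod 2) (w : ℕ → ℝ) (κ lam : ℝ) (N E : ℕ) {K1 K2 : ℕ}
    (u1 : Fin K1 → Fin (2 * N)) (u2 : Fin K2 → Fin (2 * N)) : 0 ≤ Sc b g w κ lam N E u1 u2 := by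
  unfold Sc; split_ifs <;> positivity

theorem sum_Gc (b g : ℕ → ZMod 2) (κ : ℝ) (N h : ℕ) (hN : 0 < N) (hh : 0 < h) (h0 : b 0 ≠ 0)
    {K1 K2 : ℕ} (hK1 : 0 < K1) (u2 : Fin K2 → Fin (2 * N)) :
    ∑ u1 : Fin K1 → Fin (2 * N), Gc b g κ N h u1 u2 ≤ (2 * N : ℝ) ^ K1 * (12288 / K1) := by
  unfold Gc
  split_ifs with hc
  · rw [← Finset.sum_div]
    have hA1 : 1 ≤ A b h := one_le_A b h0 h hh
    have hK1' : (0 : ℝ) < K1 := by positivity
    have hv := variance b (fun t => g t + ∑ i, sh b t (u2 i)) K1 N hN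
    have hD : (0 : ℝ) < (K1 * A b h / 8) ^ 2 := by positivity
    rw [div_le_iff₀ hD]
    refine hv.trans ?_
    have hAN : A b N ^ 2 ≤ (8 * A b h) ^ 2 := pow_le_pow_left₀ (A_nonneg _ _) hc.2.le 2
    have e : (2 * (N : ℝ)) ^ K1 * (12288 / K1) * (K1 * A b h / 8) ^ 2 =
        (2 * (N : ℝ)) ^ K1 * (3 * K1 * (8 * A b h) ^ 2) := by
      field_simp; ring
    rw [e]
    refine mul_le_mul_of_nonneg_left ?_ (by positivity)
    exact mul_le_mul_of_nonneg_left hAN (by positivity)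
  · simp; positivity

theorem sum_Sc (b g : ℕ → ZMod 2) (w : ℕ → ℝ) (hw : ∀ t, |w t| ≤ 1) (κ lam : ℝ) (hlam : 0 < lam)
    (N E e : ℕ) (hN : 0 < N) (hE : E * 2 ^ e = N)
    {K1 K2 : ℕ} (u1 : Fin K1 → Fin (2 * N)) :
    ∑ u2 : Fin K2 → Fin (2 * N), Sc b g w κ lam N E u1 u2 ≤
      (2 * N : ℝ) ^ K2 * ((2 * (1 / 2) ^ e + |1 - κ / 4 * (1 / 2) ^ e| ^ K2) / lam ^ 2) := by
  have hN' : (0 : ℝ) < N := by positivity
  unfold Sc
  split_ifs with hc
  · rw [← Finset.sum_div]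
    have hD : (0 : ℝ) < (lam * N) ^ 2 := by positivity
    rw [div_le_iff₀ hD]
    have hEN : E ≤ N := by rw [← hE]; exact Nat.le_mul_of_pos_right E (by positivity)
    have hs := strong b (fun t => g t + ∑ i, sh b t (u1 i)) K2 N E hN hEN w hw
    refine hs.trans ?_
    have hEr : (E : ℝ) = N * (1 / 2) ^ e := by
      have : (E : ℝ) * 2 ^ e = N := by exact_mod_cast hE
      rw [← this, mul_assoc, ← mul_pow]; norm_num
    have hq : 0 ≤ 1 - A b E / N := by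
      have h1 : A b E ≤ N := (A_le b E).trans (by exact_mod_cast hEN)
      have : A b E / N ≤ 1 := by rwa [div_le_one hN']
      linarith
    have hq2 : 1 - A b E / N ≤ 1 - κ / 4 * (1 / 2) ^ e := by
      have : κ / 4 * (1 / 2) ^ e ≤ A b E / N := by
        rw [le_div_iff₀ hN']
        calc κ / 4 * (1 / 2) ^ e * N = κ / 4 * E := by rw [hEr]; ring
          _ ≤ _ := hc
      linarith
    have hq3 : (1 - A b E / N) ^ K2 ≤ |1 - κ / 4 * (1 / 2) ^ e| ^ K2 :=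
      pow_le_pow_left₀ hq (hq2.trans (le_abs_self _)) K2
    have e3 : (2 * (N : ℝ)) ^ K2 * ((2 * (1 / 2) ^ e + |1 - κ / 4 * (1 / 2) ^ e| ^ K2) / lam ^ 2) *
        (lam * N) ^ 2 = (2 * (N : ℝ)) ^ K2 *
        (2 * E * N + (N : ℝ) ^ 2 * |1 - κ / 4 * (1 / 2) ^ e| ^ K2) := by
      rw [hEr]; field_simp
    rw [e3]
    refine mul_le_mul_of_nonneg_left ?_ (by positivity)
    have := mul_le_mul_of_nonneg_left hq3 (by positivity : (0 : ℝ) ≤ (N : ℝ) ^ 2)
    linarith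
  · simp; positivity

/-- **one block: a good choice of the shifts exists** -/
theorem step (m m' : ℕ) (lam κ : ℝ) (hlam : 0 < lam) (hκ : 0 < κ)
    (hκm : κ * (40000 * (m + 1)) ≤ 1) :
    ∃ e K : ℕ, ∀ J : ℕ, e ≤ J → 1 ≤ J → ∀ (b : ℕ → ℕ → ZMod 2) (w : ℕ → ℕ → ℝ),
      (∀ i, b i 0 ≠ 0) → (∀ k t, |w k t| ≤ 1) →
      ∃ u : Fin K → Fin (2 * 2 ^ J), ∀ i < m,
        (A (b i) (2 ^ (J - 1)) ≤ κ * 2 ^ (J - 1) →
          8 * A (b i) (2 ^ (J - 1)) ≤ A (b i) (2 ^ J) ∨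
          8 * A (b i) (2 ^ (J - 1)) ≤
            ∑ t ∈ range (2 ^ J), ind (nw (b i) (fun t => b i (2 ^ J + t)) u t)) ∧
        (κ / 4 * 2 ^ (J - e) ≤ A (b i) (2 ^ (J - e)) → ∀ k < m',
          |∑ t ∈ range (2 ^ J), w k t * sg (nw (b i) (fun t => b i (2 ^ J + t)) u t)| ≤
            lam * 2 ^ J) := by
  obtain ⟨K1, hK1⟩ : ∃ K1 : ℕ, K1 = 30000 * (m + 1) := ⟨_, rfl⟩
  have hK1pos : 0 < K1 := by omega
  have hδ : 0 < lam ^ 2 / (16 * (m * m' + 1)) := by positivity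
  obtain ⟨e, he⟩ := exists_pow_lt_of_lt_one hδ (by norm_num : (1 / 2 : ℝ) < 1)
  have hb1 : |1 - κ / 4 * (1 / 2) ^ e| < 1 := by
    have h1 : 0 < κ / 4 * (1 / 2) ^ e := by positivity
    have h2 : κ / 4 * (1 / 2) ^ e ≤ 1 := by
      have : (1 / 2 : ℝ) ^ e ≤ 1 := pow_le_one₀ (by norm_num) (by norm_num)
      have hκ1 : κ ≤ 1 := by
        have : (0 : ℝ) ≤ m := by positivity
        nlinarith
      nlinarith
    rw [abs_of_nonneg (by linarith)]; linarith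
  obtain ⟨K2, hK2⟩ := exists_pow_lt_of_lt_one (by positivity : 0 < lam ^ 2 / (8 * (m * m' + 1))) hb1
  refine ⟨e, K1 + K2, fun J heJ hJ b w hb hw => ?_⟩
  set N : ℕ := 2 ^ J with hN
  have hNpos : 0 < N := by positivity
  have hNr : (0 : ℝ) < N := by positivity
  have hNcast : (N : ℝ) = 2 ^ J := by rw [hN]; push_cast; ring
  have hh2 : 2 * 2 ^ (J - 1) = N := by
    rw [hN, ← pow_succ']; congr 1; omega
  have hEE : 2 ^ (J - e) * 2 ^ e = N := by
    rw [hN, ← pow_add]; congr 1; omega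
  set g : ℕ → ℕ → ZMod 2 := fun i t => b i (N + t) with hg
  set Φ : (Fin K1 → Fin (2 * N)) → (Fin K2 → Fin (2 * N)) → ℝ := fun u1 u2 =>
    ∑ i ∈ range m, (Gc (b i) (g i) κ N (2 ^ (J - 1)) u1 u2 +
      ∑ k ∈ range m', Sc (b i) (g i) (w k) κ lam N (2 ^ (J - e)) u1 u2) with hΦ
  have hcard : ∀ K : ℕ, ((Fintype.card (Fin K → Fin (2 * N)) : ℕ) : ℝ) = (2 * N : ℝ) ^ K := by
    intro K; simp
  have hsum : ∑ u1, ∑ u2, Φ u1 u2 < Fintype.card (Fin K1 → Fin (2 * N)) *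
      Fintype.card (Fin K2 → Fin (2 * N)) := by
    rw [hcard, hcard]
    set P1 : ℝ := (2 * N : ℝ) ^ K1 with hP1
    set P2 : ℝ := (2 * N : ℝ) ^ K2 with hP2
    have hP1p : 0 < P1 := by positivity
    have hP2p : 0 < P2 := by positivity
    have hG : ∀ i, ∑ u1 : Fin K1 → Fin (2 * N), ∑ u2 : Fin K2 → Fin (2 * N),
        Gc (b i) (g i) κ N (2 ^ (J - 1)) u1 u2 ≤ P2 * (P1 * (12288 / K1)) := by
      intro i
      rw [Finset.sum_comm]
      calc ∑ u2 : Fin K2 → Fin (2 * N), ∑ u1 : Fin K1 → Fin (2 * N),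
            Gc (b i) (g i) κ N (2 ^ (J - 1)) u1 u2
          ≤ ∑ u2 : Fin K2 → Fin (2 * N), P1 * (12288 / K1) :=
            Finset.sum_le_sum fun u2 _ => sum_Gc (b i) (g i) κ N (2 ^ (J - 1)) hNpos
              (by positivity) (hb i) hK1pos u2
        _ = P2 * (P1 * (12288 / K1)) := by
            rw [Finset.sum_const, Finset.card_univ, nsmul_eq_mul, hcard]
    have hS : ∀ i k, ∑ u1 : Fin K1 → Fin (2 * N), ∑ u2 : Fin K2 → Fin (2 * N),
        Sc (b i) (g i) (w k) κ lam N (2 ^ (J - e)) u1 u2 ≤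
        P1 * (P2 * ((2 * (1 / 2) ^ e + |1 - κ / 4 * (1 / 2) ^ e| ^ K2) / lam ^ 2)) := by
      intro i k
      calc ∑ u1 : Fin K1 → Fin (2 * N), ∑ u2 : Fin K2 → Fin (2 * N),
            Sc (b i) (g i) (w k) κ lam N (2 ^ (J - e)) u1 u2
          ≤ ∑ u1 : Fin K1 → Fin (2 * N),
              P2 * ((2 * (1 / 2) ^ e + |1 - κ / 4 * (1 / 2) ^ e| ^ K2) / lam ^ 2) :=
            Finset.sum_le_sum fun u1 _ => sum_Sc (b i) (g i) (w k) (hw k) κ lam hlam N
              (2 ^ (J - e)) e hNpos hEE u1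
        _ = _ := by
            rw [Finset.sum_const, Finset.card_univ, nsmul_eq_mul, hcard]
    have hexp : ∑ u1, ∑ u2, Φ u1 u2 = ∑ i ∈ range m,
        ((∑ u1 : Fin K1 → Fin (2 * N), ∑ u2 : Fin K2 → Fin (2 * N),
          Gc (b i) (g i) κ N (2 ^ (J - 1)) u1 u2) +
        ∑ k ∈ range m', ∑ u1 : Fin K1 → Fin (2 * N), ∑ u2 : Fin K2 → Fin (2 * N),
          Sc (b i) (g i) (w k) κ lam N (2 ^ (J - e)) u1 u2) := by
      rw [hΦ]
      simp only [Finset.sum_add_distrib]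
      congr 1
      · rw [Finset.sum_congr rfl fun u1 _ => Finset.sum_comm, Finset.sum_comm]
      · rw [Finset.sum_congr rfl fun u1 _ => Finset.sum_comm, Finset.sum_comm]
        refine Finset.sum_congr rfl fun i _ => ?_
        rw [Finset.sum_congr rfl fun u1 _ => Finset.sum_comm, Finset.sum_comm]
    rw [hexp]
    set s : ℝ := (2 * (1 / 2) ^ e + |1 - κ / 4 * (1 / 2) ^ e| ^ K2) / lam ^ 2 with hs
    have hs1 : s * (m * m' + 1) ≤ 1 / 4 := by
      have hp : (0 : ℝ) < m * m' + 1 := by positivity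
      have h1 : (1 / 2 : ℝ) ^ e * (16 * (m * m' + 1)) ≤ lam ^ 2 := by
        rw [lt_div_iff₀ (by positivity)] at he; exact he.le
      have h2 : |1 - κ / 4 * (1 / 2) ^ e| ^ K2 * (8 * (m * m' + 1)) ≤ lam ^ 2 := by
        rw [lt_div_iff₀ (by positivity)] at hK2; exact hK2.le
      rw [hs, div_mul_eq_mul_div, div_le_iff₀ (by positivity)]
      nlinarith
    have hs0 : 0 ≤ s := by rw [hs]; positivity
    calc ∑ i ∈ range m,
        ((∑ u1 : Fin K1 → Fin (2 * N), ∑ u2 : Fin K2 → Fin (2 * N),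
          Gc (b i) (g i) κ N (2 ^ (J - 1)) u1 u2) +
        ∑ k ∈ range m', ∑ u1 : Fin K1 → Fin (2 * N), ∑ u2 : Fin K2 → Fin (2 * N),
          Sc (b i) (g i) (w k) κ lam N (2 ^ (J - e)) u1 u2)
        ≤ ∑ i ∈ range m, (P2 * (P1 * (12288 / K1)) + ∑ k ∈ range m', P1 * (P2 * s)) :=
          Finset.sum_le_sum fun i _ => add_le_add (hG i) (Finset.sum_le_sum fun k _ => hS i k)
      _ = P1 * P2 * (m * (12288 / K1) + (m * m') * s) := by
          simp only [Finset.sum_const, Finset.card_range, nsmul_eq_mul]; ring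
      _ < P1 * P2 * 1 := by
          refine mul_lt_mul_of_pos_left ?_ (by positivity)
          have h3 : (m : ℝ) * (12288 / K1) ≤ 1 / 2 := by
            rw [hK1]; push_cast
            rw [← mul_div_assoc, div_le_iff₀ (by positivity)]
            have : (0 : ℝ) ≤ m := by positivity
            nlinarith
          nlinarith
      _ = P1 * P2 := mul_one _
  obtain ⟨u1, u2, hu⟩ := exists_lt_one Φ hsum
  refine ⟨Fin.append u1 u2, fun i hi => ?_⟩
  have hGi : Gc (b i) (g i) κ N (2 ^ (J - 1)) u1 u2 < 1 ∧ ∀ k < m',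
      Sc (b i) (g i) (w k) κ lam N (2 ^ (J - e)) u1 u2 < 1 := by
    have h1 : Gc (b i) (g i) κ N (2 ^ (J - 1)) u1 u2 +
        ∑ k ∈ range m', Sc (b i) (g i) (w k) κ lam N (2 ^ (J - e)) u1 u2 < 1 := by
      refine lt_of_le_of_lt ?_ hu
      rw [hΦ]
      exact Finset.single_le_sum (f := fun i => Gc (b i) (g i) κ N (2 ^ (J - 1)) u1 u2 +
        ∑ k ∈ range m', Sc (b i) (g i) (w k) κ lam N (2 ^ (J - e)) u1 u2)
        (fun i _ => add_nonneg (Gc_nonneg _ _ _ _ _ _ _)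
          (Finset.sum_nonneg fun k _ => Sc_nonneg _ _ _ _ _ _ _ _ _)) (Finset.mem_range.2 hi)
    have h2 : 0 ≤ ∑ k ∈ range m', Sc (b i) (g i) (w k) κ lam N (2 ^ (J - e)) u1 u2 :=
      Finset.sum_nonneg fun k _ => Sc_nonneg _ _ _ _ _ _ _ _ _
    have h3 := Gc_nonneg (b i) (g i) κ N (2 ^ (J - 1)) u1 u2
    refine ⟨by linarith, fun k hk => ?_⟩
    have h4 : Sc (b i) (g i) (w k) κ lam N (2 ^ (J - e)) u1 u2 ≤
        ∑ k ∈ range m', Sc (b i) (g i) (w k) κ lam N (2 ^ (J - e)) u1 u2 :=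
      Finset.single_le_sum (f := fun k => Sc (b i) (g i) (w k) κ lam N (2 ^ (J - e)) u1 u2)
        (fun k _ => Sc_nonneg _ _ _ _ _ _ _ _ _) (Finset.mem_range.2 hk)
    linarith
  have hcast1 : ((2 ^ (J - 1) : ℕ) : ℝ) = 2 ^ (J - 1) := by push_cast; ring
  have hcast2 : ((2 ^ (J - e) : ℕ) : ℝ) = 2 ^ (J - e) := by push_cast; ring
  constructor
  · intro hA
    by_cases hc : 8 * A (b i) (2 ^ (J - 1)) ≤ A (b i) N
    · exact Or.inl hc
    · right
      push Not at hc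
      have hG1 := hGi.1
      unfold Gc at hG1
      rw [if_pos ⟨by rw [hcast1]; exact hA, hc⟩] at hG1
      have hA1 : 1 ≤ A (b i) (2 ^ (J - 1)) := one_le_A _ (hb i) _ (by positivity)
      have hK1r : (K1 : ℝ) = 30000 * (m + 1) := by rw [hK1]; push_cast; ring
      have hm0 : (0 : ℝ) ≤ m := by positivity
      have hK1p : (0 : ℝ) < K1 := by positivity
      have hKA : (K1 : ℝ) * A (b i) (2 ^ (J - 1)) ≤ N := by
        have h2 : (2 : ℝ) * 2 ^ (J - 1) = N := by exact_mod_cast hh2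
        have h3 : (0 : ℝ) < 2 ^ (J - 1) := by positivity
        calc (K1 : ℝ) * A (b i) (2 ^ (J - 1)) ≤ K1 * (κ * 2 ^ (J - 1)) :=
              mul_le_mul_of_nonneg_left hA (by positivity)
          _ = (K1 * κ) * 2 ^ (J - 1) := by ring
          _ ≤ 1 * 2 ^ (J - 1) := by
              refine mul_le_mul_of_nonneg_right ?_ h3.le
              rw [hK1r]; nlinarith
          _ ≤ N := by linarith
      have hD : (0 : ℝ) < (K1 * A (b i) (2 ^ (J - 1)) / 8) ^ 2 := by positivity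
      rw [div_lt_one hD] at hG1
      by_contra hcon
      push Not at hcon
      have hlt : ∑ t ∈ range N, ind (nw (b i) (fun t => g i t + ∑ j, sh (b i) t (u2 j)) u1 t) <
          K1 * A (b i) (2 ^ (J - 1)) / 16 := by
        have e1 : ∑ t ∈ range N, ind (nw (b i) (fun t => g i t + ∑ j, sh (b i) t (u2 j)) u1 t) =
            ∑ t ∈ range N, ind (nw (b i) (fun t => b i (N + t)) (Fin.append u1 u2) t) :=
          Finset.sum_congr rfl fun t _ => by rw [nw_append_left]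
        rw [e1]
        refine lt_of_lt_of_le hcon ?_
        rw [hK1r]; nlinarith
      have := growth_dev (b i) (fun t => g i t + ∑ j, sh (b i) t (u2 j)) K1 N (2 ^ (J - 1)) hNpos
        hh2.le hKA u1 hlt
      linarith
  · intro hA k hk
    have hS1 := hGi.2 k hk
    unfold Sc at hS1
    rw [if_pos (by rw [hcast2]; exact hA)] at hS1
    have hD : (0 : ℝ) < (lam * N) ^ 2 := by positivity
    rw [div_lt_one hD] at hS1
    have e1 : ∑ t ∈ range N, w k t * sg (nw (b i) (fun t => g i t + ∑ j, sh (b i) t (u1 j)) u2 t) =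
        ∑ t ∈ range N, w k t * sg (nw (b i) (fun t => b i (N + t)) (Fin.append u1 u2) t) :=
      Finset.sum_congr rfl fun t _ => by rw [nw_append_right]
    rw [e1] at hS1
    rw [← hNcast]
    exact (abs_lt_of_sq_lt_sq hS1 (by positivity)).le

end Pool.Agent.H866.NE
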