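import Pool.Agent.H866.NE.Construct

namespace Pool.Agent.H866.NE

open Finset PowerSeries Filter Topology

theorem block_bound (y : ℕ → ℝ) (hy : ∀ n, |y n| ≤ 1)
    (h : ∀ R c : ℕ, Tendsto (fun J : ℕ => (∑ t ∈ range (2 ^ J),
      (if t * (R + 1) < c * 2 ^ J then y (2 ^ J + t) else 0)) / 2 ^ J) atTop (𝓝 0))
    (ε : ℝ) (hε : 0 < ε) : ∃ J0, ∀ J ≥ J0, ∀ z ≤ 2 ^ J, |∑ t ∈ range z, y (2 ^ J + t)| ≤ ε * 2 ^ J := by
  obtain ⟨R, hR⟩ := exists_nat_gt (2 / ε)
  have hR' : 1 / ((R : ℝ) + 1) ≤ ε / 2 := by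
    have h1 : 0 < 2 / ε := by positivity
    have h2 : (2 / ε) * ε = 2 := by field_simp
    rw [div_le_iff₀ (by positivity)]
    nlinarith
  have hev : ∀ᶠ J : ℕ in atTop, ∀ c ∈ range (R + 2), |(∑ t ∈ range (2 ^ J),
      (if t * (R + 1) < c * 2 ^ J then y (2 ^ J + t) else 0)) / 2 ^ J| ≤ ε / 2 := by
    rw [Filter.eventually_all_finset]
    intro c _
    have := (h R c).abs
    rw [abs_zero] at this
    exact this.eventually_le_const (by positivity)
  obtain ⟨J0, hJ0⟩ := eventually_atTop.1 hev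
  refine ⟨J0, fun J hJ z hz => ?_⟩
  set N := 2 ^ J with hN
  have hNpos : 0 < N := by positivity
  have hNr : (N : ℝ) = 2 ^ J := by rw [hN]; push_cast; ring
  have hNr0 : (0 : ℝ) < 2 ^ J := by positivity
  set c := z * (R + 1) / N with hc
  have hc1 : c * N ≤ z * (R + 1) := Nat.div_mul_le_self _ _
  have hc2 : z * (R + 1) < (c + 1) * N := by
    rw [hc]
    have := Nat.lt_div_mul_add (a := z * (R + 1)) hNpos
    rw [add_mul, one_mul]; exact this
  have hcR : c < R + 2 := by
    by_contra hcon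
    push Not at hcon
    have h1 : (R + 2) * N ≤ c * N := Nat.mul_le_mul_right N hcon
    have h2 : z * (R + 1) ≤ N * (R + 1) := Nat.mul_le_mul_right _ hz
    nlinarith
  have h1 := hJ0 J hJ c (Finset.mem_range.2 hcR)
  rw [abs_div, abs_of_pos hNr0, div_le_iff₀ hNr0] at h1
  have e1 : ∑ t ∈ range z, y (N + t) =
      (∑ t ∈ range N, (if t * (R + 1) < c * N then y (N + t) else 0)) +
      ∑ t ∈ (range z).filter (fun t => ¬ t * (R + 1) < c * N), y (N + t) := by
    rw [← Finset.sum_filter, ← Finset.sum_filter_add_sum_filter_not (range z)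
      (fun t => t * (R + 1) < c * N) (fun t => y (N + t))]
    congr 1
    refine Finset.sum_congr ?_ fun _ _ => rfl
    ext t
    simp only [Finset.mem_filter, Finset.mem_range]
    constructor
    · rintro ⟨h1, h2⟩; exact ⟨by omega, h2⟩
    · rintro ⟨h1, h2⟩
      refine ⟨?_, h2⟩
      have := lt_of_lt_of_le h2 hc1
      exact Nat.lt_of_mul_lt_mul_right this
  rw [e1]
  refine (abs_add_le _ _).trans ?_
  have h2 : |∑ t ∈ (range z).filter (fun t => ¬ t * (R + 1) < c * N), y (N + t)| ≤ ε / 2 * 2 ^ J := by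
    refine (Finset.abs_sum_le_sum_abs _ _).trans ?_
    refine (Finset.sum_le_sum fun t _ => hy (N + t)).trans ?_
    rw [Finset.sum_const, nsmul_eq_mul, mul_one]
    have hsub : (range z).filter (fun t => ¬ t * (R + 1) < c * N) ⊆
        Finset.Ico ((c * N + R) / (R + 1)) z := by
      intro t ht
      simp only [Finset.mem_filter, Finset.mem_range, not_lt] at ht
      rw [Finset.mem_Ico]
      refine ⟨?_, ht.1⟩
      rw [Nat.div_le_iff_le_mul_add_pred (by omega)]
      have := ht.2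
      calc c * N + R ≤ t * (R + 1) + R := by omega
        _ = (R + 1) * t + (R + 1 - 1) := by rw [mul_comm]; omega
    have h3 := Finset.card_le_card hsub
    rw [Nat.card_Ico] at h3
    have h4 : ((R : ℝ) + 1) * ((range z).filter (fun t => ¬ t * (R + 1) < c * N)).card ≤ N := by
      have h5 : c * N ≤ (R + 1) * ((c * N + R) / (R + 1)) := by
        have := Nat.lt_div_mul_add (a := c * N + R) (b := R + 1) (by omega)
        have e : (c * N + R) / (R + 1) * (R + 1) = (R + 1) * ((c * N + R) / (R + 1)) := mul_comm _ _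
        omega
      have h6 : (R + 1) * ((range z).filter (fun t => ¬ t * (R + 1) < c * N)).card ≤ N := by
        calc (R + 1) * ((range z).filter (fun t => ¬ t * (R + 1) < c * N)).card
            ≤ (R + 1) * (z - (c * N + R) / (R + 1)) := Nat.mul_le_mul_left _ h3
          _ = (R + 1) * z - (R + 1) * ((c * N + R) / (R + 1)) := Nat.mul_sub _ _ _
          _ ≤ (R + 1) * z - c * N := Nat.sub_le_sub_left h5 _
          _ ≤ N := by
            rw [add_mul, one_mul, mul_comm z] at hc2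
            omega
      exact_mod_cast h6
    rw [hNr] at h4
    calc (((range z).filter (fun t => ¬ t * (R + 1) < c * N)).card : ℝ)
        ≤ 2 ^ J / ((R : ℝ) + 1) := by
          rw [le_div_iff₀ (by positivity)]; linarith
      _ = 1 / ((R : ℝ) + 1) * 2 ^ J := by ring
      _ ≤ ε / 2 * 2 ^ J := mul_le_mul_of_nonneg_right hR' hNr0.le
  linarith

theorem partial_sums (y : ℕ → ℝ) (hy : ∀ n, |y n| ≤ 1)
    (h : ∀ R c : ℕ, Tendsto (fun J : ℕ => (∑ t ∈ range (2 ^ J),
      (if t * (R + 1) < c * 2 ^ J then y (2 ^ J + t) else 0)) / 2 ^ J) atTop (𝓝 0)) :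
    Tendsto (fun x : ℕ => (∑ n ∈ range x, y n) / (x : ℝ)) atTop (𝓝 0) := by
  rw [Metric.tendsto_atTop]
  intro ε hε
  obtain ⟨J0, hJ0⟩ := block_bound y hy h (ε / 4) (by positivity)
  have hdy : ∀ J ≥ J0, |∑ n ∈ range (2 ^ J), y n| ≤ 2 ^ J0 + ε / 4 * 2 ^ J := by
    intro J hJ
    induction J, hJ using Nat.le_induction with
    | base =>
      have h1 : |∑ n ∈ range (2 ^ J0), y n| ≤ 2 ^ J0 := by
        refine (Finset.abs_sum_le_sum_abs _ _).trans ?_
        refine (Finset.sum_le_sum fun t _ => hy t).trans ?_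
        simp
      have : 0 ≤ ε / 4 * 2 ^ J0 := by positivity
      linarith
    | succ J hJ ih =>
      have e : ∑ n ∈ range (2 ^ (J + 1)), y n =
          ∑ n ∈ range (2 ^ J), y n + ∑ t ∈ range (2 ^ J), y (2 ^ J + t) := by
        rw [pow_succ, mul_two, Finset.sum_range_add]
      rw [e]
      refine (abs_add_le _ _).trans ?_
      have := hJ0 J hJ (2 ^ J) le_rfl
      have e2 : (2 : ℝ) ^ (J + 1) = 2 * 2 ^ J := by ring
      rw [e2]; linarith
  obtain ⟨X, hX⟩ := exists_nat_gt (2 ^ J0 / (ε / 4) + 2 ^ J0)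
  refine ⟨X + 1, fun x hx => ?_⟩
  have hxr : (2 : ℝ) ^ J0 / (ε / 4) + 2 ^ J0 < x := by
    refine hX.trans_le ?_
    exact_mod_cast (by omega : X ≤ x)
  have hp : (0 : ℝ) < 2 ^ J0 / (ε / 4) := by positivity
  have hx0 : x ≠ 0 := by omega
  have hxpos : (0 : ℝ) < x := by positivity
  set J := Nat.log 2 x with hJ
  have hJ1 : 2 ^ J ≤ x := Nat.pow_log_le_self 2 hx0
  have hJ2 : x < 2 ^ (J + 1) := Nat.lt_pow_succ_log_self (by norm_num) x
  have hJJ : J0 ≤ J := by
    have h1 : ((2 ^ J0 : ℕ) : ℝ) < x := by push_cast; linarith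
    have h2 : 2 ^ J0 < x := by exact_mod_cast h1
    have h3 : 2 ^ J0 < 2 ^ (J + 1) := h2.trans hJ2
    have := (Nat.pow_lt_pow_iff_right (by norm_num : 1 < 2)).1 h3
    omega
  have e : ∑ n ∈ range x, y n =
      ∑ n ∈ range (2 ^ J), y n + ∑ t ∈ range (x - 2 ^ J), y (2 ^ J + t) := by
    rw [← Finset.sum_range_add]; congr 2; omega
  have hb : |∑ n ∈ range x, y n| ≤ 2 ^ J0 + ε / 2 * x := by
    rw [e]
    refine (abs_add_le _ _).trans ?_
    have h1 := hdy J hJJ
    have h2 := hJ0 J hJJ (x - 2 ^ J) (by rw [pow_succ] at hJ2; omega)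
    have h3 : (2 : ℝ) ^ J ≤ x := by exact_mod_cast hJ1
    nlinarith
  rw [Real.dist_eq, sub_zero, abs_div, abs_of_pos hxpos, div_lt_iff₀ hxpos]
  have h4 : (2 : ℝ) ^ J0 < ε / 4 * x := by
    have : (2 : ℝ) ^ J0 / (ε / 4) < x := by
      have : (0 : ℝ) < 2 ^ J0 := by positivity
      linarith
    rw [div_lt_iff₀ (by positivity)] at this
    linarith
  nlinarith

theorem exists_X_pow_mul (B : PowerSeries (ZMod 2)) (hB : B ≠ 0) :
    ∃ (d : ℕ) (B' : PowerSeries (ZMod 2)), B = X ^ d * B' ∧ co B' 0 ≠ 0 := by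
  obtain ⟨B', hB'⟩ := PowerSeries.X_pow_order_dvd (φ := B)
  refine ⟨_, B', hB', ?_⟩
  have h1 := PowerSeries.coeff_order hB
  rw [hB', PowerSeries.coeff_X_pow_mul'] at h1
  unfold co
  intro h0
  apply h1
  rw [if_pos]
  · rw [← hB', Nat.sub_self, h0]
  · rw [← hB']

theorem co_X_pow_mul (B : PowerSeries (ZMod 2)) (d n : ℕ) : co (X ^ d * B) (n + d) = co B n := by
  unfold co
  rw [PowerSeries.coeff_X_pow_mul]

theorem sco_X_pow_mul (B : PowerSeries (ZMod 2)) (S : Set ℕ) (d n : ℕ) :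
    sco (X ^ d * B) S (n + d) = sco B S n := by
  classical
  rw [sco_eq (X ^ d * B) S ((Finset.range (n + d + 1)).filter fun s => s ∈ S) (n + d)
    (fun s hs => by simp; intro _; omega)]
  rw [sco_eq B S ((Finset.range (n + d + 1)).filter fun s => s ∈ S) n
    (fun s hs => by simp; intro _; omega)]
  rw [mul_assoc, co_X_pow_mul]

/-- **the main theorem for signs** -/
theorem signs {ι κ : Type} [Countable ι] [Countable κ] (ψ : ℕ → ℝ) (hψ : Tendsto ψ atTop atTop)
    (B : ι → PowerSeries (ZMod 2)) (hB : ∀ i, B i ≠ 0) (w : κ → ℕ → ℝ) (hw : ∀ k n, |w k n| ≤ 1) :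
    ∃ S : Set ℕ, 0 ∉ S ∧
      (∀ᶠ x : ℕ in atTop, ((S ∩ Set.Icc 1 x).ncard : ℝ) ≤ ψ x * Real.log x) ∧
      ∀ i k, Tendsto (fun x : ℕ => (∑ n ∈ range x, w k n * sg (sco (B i) S n)) / (x : ℝ))
        atTop (𝓝 0) := by
  classical
  choose d B' hdB hB0 using fun i => exists_X_pow_mul (B i) (hB i)
  obtain ⟨fi, hfi⟩ := exists_surjective_nat (Option ι)
  obtain ⟨fk, hfk⟩ := exists_surjective_nat (Option (κ × ℕ × ℕ × ℕ))
  set BB : Option ι → PowerSeries (ZMod 2) := fun o => o.elim 1 B' with hBB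
  set ww : Option (κ × ℕ × ℕ × ℕ) → ℕ → ℝ := fun o n => o.elim 0 fun p =>
    if (n - 2 ^ Nat.log 2 n) * (p.2.2.1 + 1) < p.2.2.2 * 2 ^ Nat.log 2 n then w p.1 (n + p.2.1)
    else 0 with hww
  obtain ⟨S, hS0, hS1, hS2⟩ := construct ψ hψ (fun n => BB (fi n))
    (fun n => by
      rcases fi n with _ | i
      · simp [hBB, co]
      · exact hB0 i) (fun n => ww (fk n))
    (fun k n => by
      rcases fk k with _ | p
      · simp [hww]
      · simp only [hww, Option.elim_some]
        split_ifs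
        · exact hw _ _
        · simp)
  refine ⟨S, hS0, hS1, fun i k => ?_⟩
  have h1 : ∀ R c : ℕ, Tendsto (fun J : ℕ => (∑ t ∈ range (2 ^ J),
      (if t * (R + 1) < c * 2 ^ J then w k (2 ^ J + t + d i) * sg (sco (B' i) S (2 ^ J + t)) else 0))
        / 2 ^ J) atTop (𝓝 0) := by
    intro R c
    obtain ⟨a, ha⟩ := hfi (some i)
    obtain ⟨b, hb⟩ := hfk (some (k, d i, R, c))
    have h2 := hS2 a b
    refine h2.congr fun J => ?_
    congr 1
    refine Finset.sum_congr rfl fun t ht => ?_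
    have ht' : t < 2 ^ J := Finset.mem_range.1 ht
    have hlog : Nat.log 2 (2 ^ J + t) = J := by
      rw [Nat.log_eq_iff (by right; constructor <;> [norm_num; (have : 0 < 2 ^ J := by positivity
                                                                omega)])]
      constructor
      · omega
      · rw [pow_succ]; omega
    simp only [hww, hBB, ha, hb, Option.elim_some, hlog]
    rw [show 2 ^ J + t - 2 ^ J = t by omega]
    split_ifs <;> simp
  have h2 := partial_sums (fun n => w k (n + d i) * sg (sco (B' i) S n))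
    (fun n => by rw [abs_mul, abs_sg, mul_one]; exact hw _ _) h1
  -- shift by `d i`
  have h3 : ∀ x : ℕ, ∑ n ∈ range (x + d i), w k n * sg (sco (B i) S n) =
      ∑ n ∈ range (d i), w k n * sg (sco (B i) S n) +
      ∑ n ∈ range x, w k (n + d i) * sg (sco (B' i) S n) := by
    intro x
    rw [add_comm x, Finset.sum_range_add]
    congr 1
    refine Finset.sum_congr rfl fun n _ => ?_
    conv_lhs => rw [hdB i]
    rw [add_comm (d i) n, sco_X_pow_mul]
  rw [← Filter.tendsto_add_atTop_iff_nat (d i)]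
  have h4 : Tendsto (fun x : ℕ => (∑ n ∈ range (d i), w k n * sg (sco (B i) S n)) /
      ((x + d i : ℕ) : ℝ)) atTop (𝓝 0) := by
    refine Tendsto.div_atTop tendsto_const_nhds ?_
    exact tendsto_natCast_atTop_atTop.comp (Filter.tendsto_add_atTop_nat (d i))
  have h5 : Tendsto (fun x : ℕ => (∑ n ∈ range x, w k (n + d i) * sg (sco (B' i) S n)) /
      ((x + d i : ℕ) : ℝ)) atTop (𝓝 0) := by
    refine squeeze_zero_norm' ?_ ((tendsto_zero_iff_norm_tendsto_zero.1 h2))
    filter_upwards [eventually_gt_atTop 0] with x hx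
    rw [norm_div, norm_div]
    refine div_le_div_of_nonneg_left (norm_nonneg _) (by simpa using hx) ?_
    rw [Real.norm_eq_abs, Real.norm_eq_abs, abs_of_nonneg (by positivity),
      abs_of_nonneg (by positivity)]
    push_cast; linarith [(Nat.cast_nonneg (d i) : (0 : ℝ) ≤ (d i : ℝ))]
  have h6 := h4.add h5
  rw [add_zero] at h6
  refine h6.congr fun x => ?_
  rw [h3, add_div]

end Pool.Agent.H866.NE
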