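import Pool.Agent.H866.NE.Sums

namespace Pool.Agent.H866.NE

open Finset PowerSeries Filter Topology

theorem add_eq_one_of_ne (a c : ZMod 2) (h : a ≠ c) : a + c = 1 := by
  revert a c; decide

open Classical in
theorem indicator_word (f : ℕ → ZMod 2) (L n : ℕ) (v : Fin L → ZMod 2) :
    (if ∀ i : Fin L, f (n + i) = v i then (1 : ℝ) else 0) =
      (1 / 2) ^ L * ∑ H ∈ (Finset.univ : Finset (Fin L)).powerset,
        sg (∑ i ∈ H, v i) * sg (∑ i ∈ H, f (n + i)) := by
  have h1 : (if ∀ i : Fin L, f (n + i) = v i then (1 : ℝ) else 0) =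
      ∏ i : Fin L, ((1 / 2) * (1 + sg (f (n + i) + v i))) := by
    split_ifs with h
    · rw [Finset.prod_eq_one]
      intro i _
      rw [h i, CharTwo.add_self_eq_zero]
      simp [sg]; norm_num
    · push Not at h
      obtain ⟨i, hi⟩ := h
      rw [Finset.prod_eq_zero (Finset.mem_univ i)]
      have : f (n + i) + v i = 1 := add_eq_one_of_ne _ _ hi
      rw [this]; simp [sg]
  rw [h1, Finset.prod_mul_distrib, Finset.prod_const, Finset.card_univ, Fintype.card_fin,
    Finset.prod_one_add]
  congr 1
  refine Finset.sum_congr rfl fun H _ => ?_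
  rw [sg_sum, sg_sum, ← Finset.prod_mul_distrib]
  refine Finset.prod_congr rfl fun i _ => ?_
  rw [sg_add, mul_comm]

open Classical in
theorem words (f : ℕ → ZMod 2) (w : ℕ → ℝ)
    (h : ∀ H : Finset ℕ, H.Nonempty →
      Tendsto (fun x : ℕ => (∑ n ∈ range x, w n * sg (∑ l ∈ H, f (n + l))) / (x : ℝ)) atTop (𝓝 0))
    (L : ℕ) (v : Fin L → ZMod 2) :
    Tendsto (fun x : ℕ => (∑ n ∈ range x, w n *
      ((if ∀ i : Fin L, f (n + i) = v i then (1 : ℝ) else 0) - (1 / 2) ^ L)) / (x : ℝ))
      atTop (𝓝 0) := by
  have e : ∀ x : ℕ, (∑ n ∈ range x, w n *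
      ((if ∀ i : Fin L, f (n + i) = v i then (1 : ℝ) else 0) - (1 / 2) ^ L)) / (x : ℝ) =
      ∑ H ∈ (Finset.univ : Finset (Fin L)).powerset.erase ∅, (1 / 2) ^ L * sg (∑ i ∈ H, v i) *
        ((∑ n ∈ range x, w n * sg (∑ l ∈ H.map Fin.valEmbedding, f (n + l))) / (x : ℝ)) := by
    intro x
    have h1 : ∀ n, w n * ((if ∀ i : Fin L, f (n + i) = v i then (1 : ℝ) else 0) - (1 / 2) ^ L) =
        ∑ H ∈ (Finset.univ : Finset (Fin L)).powerset.erase ∅, (1 / 2) ^ L * sg (∑ i ∈ H, v i) *
          (w n * sg (∑ l ∈ H.map Fin.valEmbedding, f (n + l))) := by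
      intro n
      rw [indicator_word, ← Finset.add_sum_erase _ _ (Finset.empty_mem_powerset _)]
      simp only [Finset.sum_empty, Finset.sum_map, Fin.valEmbedding_apply]
      rw [show sg 0 * sg 0 = 1 by simp [sg], mul_add, mul_one, add_sub_cancel_left,
        Finset.mul_sum, Finset.mul_sum]
      refine Finset.sum_congr rfl fun H _ => ?_
      ring
    simp only [h1]
    rw [Finset.sum_comm, Finset.sum_div]
    refine Finset.sum_congr rfl fun H _ => ?_
    rw [← Finset.mul_sum, mul_div_assoc]
  simp only [e]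
  rw [show (0 : ℝ) = ∑ H ∈ (Finset.univ : Finset (Fin L)).powerset.erase ∅,
    (1 / 2) ^ L * sg (∑ i ∈ H, v i) * 0 by simp]
  refine tendsto_finsetSum _ fun H hH => Tendsto.const_mul _ (h _ ?_)
  rw [Finset.map_nonempty]
  exact Finset.nonempty_iff_ne_empty.2 (Finset.mem_erase.1 hH).1

/-! ### windows as multiplication by a polynomial -/

/-- the polynomial of a finite set of places -/
noncomputable def P (H : Finset ℕ) : PowerSeries (ZMod 2) := ∑ l ∈ H, X ^ (H.sup id - l)

theorem P_ne_zero (H : Finset ℕ) (hH : H.Nonempty) : P H ≠ 0 := by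
  intro h0
  have h1 : coeff 0 (P H) = 0 := by rw [h0]; simp
  obtain ⟨m, hm, hm2⟩ := Finset.exists_mem_eq_sup H hH id
  unfold P at h1
  rw [map_sum, Finset.sum_eq_single m] at h1
  · rw [hm2] at h1; simp at h1
  · intro l hl hlm
    have h2 : l ≤ H.sup id := Finset.le_sup (f := id) hl
    have h3 : H.sup id - l ≠ 0 := by
      simp only [id] at hm2
      omega
    rw [PowerSeries.coeff_X_pow, if_neg (by omega)]
  · intro h; exact absurd hm h

theorem sum_window (G : PowerSeries (ZMod 2)) (S : Set ℕ) (H : Finset ℕ) (n : ℕ) :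
    ∑ l ∈ H, sco G S (n + l) = sco (P H * G) S (n + H.sup id) := by
  classical
  set m := H.sup id with hm
  rw [sco_eq (P H * G) S ((Finset.range (n + m + 1)).filter fun s => s ∈ S) (n + m)
    (fun s hs => by simp; intro _; omega)]
  unfold P
  rw [Finset.sum_mul, Finset.sum_mul]
  unfold co
  rw [map_sum]
  refine Finset.sum_congr rfl fun l hl => ?_
  have h2 : l ≤ m := Finset.le_sup (f := id) hl
  rw [sco_eq G S ((Finset.range (n + m + 1)).filter fun s => s ∈ S) (n + l)
    (fun s hs => by simp; intro _; omega), mul_assoc]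
  have e : n + m = (n + l) + (m - l) := by omega
  conv_rhs => rw [← hm]
  rw [e, PowerSeries.coeff_X_pow_mul]
  rw [← e]; rfl

/-! ### finite changes -/

theorem sco_finite_change (G : PowerSeries (ZMod 2)) (S D : Set ℕ) (F1 F2 : Finset ℕ)
    (h1 : ∀ s ∈ F1, s ∈ S ∧ s ∉ D) (h2 : ∀ s ∈ F2, s ∈ D ∧ s ∉ S)
    (h3 : ∀ s, s ∉ F1 → s ∉ F2 → (s ∈ S ↔ s ∈ D)) (h0 : 0 ∉ S) (n : ℕ) :
    sco (G * F F2 * (F F1)⁻¹) S n = sco G D n := by
  classical
  set T := (Finset.range (n + 1)).filter (fun s => s ∈ S ∧ s ∉ F1) with hT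
  have hd1 : Disjoint F1 T := by
    rw [Finset.disjoint_left]; intro s hs hs2
    exact (Finset.mem_filter.1 hs2).2.2 hs
  have hd2 : Disjoint F2 T := by
    rw [Finset.disjoint_left]; intro s hs hs2
    exact (h2 s hs).2 (Finset.mem_filter.1 hs2).2.1
  rw [sco_eq _ S (F1 ∪ T) n, sco_eq G D (F2 ∪ T) n]
  · rw [F_union hd1, F_union hd2]
    have hinv : (F F1)⁻¹ * F F1 = 1 := by
      apply PowerSeries.inv_mul_cancel
      have := co_F_zero 1 F1 (fun h => h0 (h1 0 h).1)
      unfold co at this
      rw [one_mul, PowerSeries.coeff_zero_eq_constantCoeff_apply] at this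
      rw [this]; simp
    have e : G * F F2 * (F F1)⁻¹ * (F F1 * F T) = G * (F F2 * F T) := by
      calc G * F F2 * (F F1)⁻¹ * (F F1 * F T) = G * F F2 * ((F F1)⁻¹ * F F1) * F T := by ring
        _ = _ := by rw [hinv]; ring
    rw [e]
  · intro s hs
    rw [Finset.mem_union, hT, Finset.mem_filter, Finset.mem_range]
    constructor
    · rintro (h | h)
      · exact (h2 s h).1
      · exact (h3 s h.2.2 fun hc => (h2 s hc).2 h.2.1).1 h.2.1
    · intro h
      by_cases hF : s ∈ F2
      · exact Or.inl hF
      · right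
        have hF1 : s ∉ F1 := fun hc => (h1 s hc).2 h
        exact ⟨by omega, (h3 s hF1 hF).2 h, hF1⟩
  · intro s hs
    rw [Finset.mem_union, hT, Finset.mem_filter, Finset.mem_range]
    constructor
    · rintro (h | h)
      · exact (h1 s h).1
      · exact h.2.1
    · intro h
      by_cases hF : s ∈ F1
      · exact Or.inl hF
      · exact Or.inr ⟨by omega, h, hF⟩

/-! ### partitions -/

/-- the number of the partitions of `n` with no part in the finite set `T` -/
def av (T : Finset ℕ) (n : ℕ) : ℕ :=
  ((Finset.univ : Finset (Nat.Partition n)).filter fun p => ∀ a ∈ p.parts, a ∉ T).card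

/-- adjoin a part -/
def addPart (n a : ℕ) (ha : 0 < a) (han : a ≤ n) (p : Nat.Partition (n - a)) : Nat.Partition n where
  parts := a ::ₘ p.parts
  parts_pos := by
    intro i hi
    rcases Multiset.mem_cons.1 hi with h | h
    · omega
    · exact p.parts_pos h
  parts_sum := by
    rw [Multiset.sum_cons, p.parts_sum]
    omega

/-- remove a part -/
def delPart (n a : ℕ) (q : Nat.Partition n) (ha : a ∈ q.parts) : Nat.Partition (n - a) where
  parts := q.parts.erase a
  parts_pos := by
    intro i hi
    exact q.parts_pos (Multiset.mem_of_mem_erase hi)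
  parts_sum := by
    have h1 := Multiset.cons_erase ha
    have h2 := congrArg Multiset.sum h1
    rw [Multiset.sum_cons, q.parts_sum] at h2
    omega

theorem av_insert (T : Finset ℕ) (a n : ℕ) (ha : 0 < a) (haT : a ∉ T) (han : a ≤ n) :
    av (insert a T) n + av T (n - a) = av T n := by
  classical
  unfold av
  rw [← Finset.card_filter_add_card_filter_not
    (s := (Finset.univ : Finset (Nat.Partition n)).filter fun p => ∀ b ∈ p.parts, b ∉ T)
    (p := fun p => a ∉ p.parts)]
  congr 1
  · rw [Finset.filter_filter]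
    congr 1
    refine Finset.filter_congr fun p _ => ?_
    constructor
    · intro h
      exact ⟨fun b hb hbT => h b hb (Finset.mem_insert_of_mem hbT),
        fun hap => h a hap (Finset.mem_insert_self _ _)⟩
    · rintro ⟨h1, h2⟩ b hb hbT
      rcases Finset.mem_insert.1 hbT with h | h
      · subst h; exact h2 hb
      · exact h1 b hb h
  · refine Finset.card_bij (fun p _ => addPart n a ha han p) ?_ ?_ ?_
    · intro p hp
      rw [Finset.mem_filter] at hp
      rw [Finset.mem_filter, Finset.mem_filter]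
      refine ⟨⟨Finset.mem_univ _, ?_⟩, ?_⟩
      · intro b hb
        rcases Multiset.mem_cons.1 hb with h | h
        · subst h; exact haT
        · exact hp.2 b h
      · exact not_not.2 (Multiset.mem_cons_self a _)
    · intro p _ q _ h
      apply Nat.Partition.ext
      exact (Multiset.cons_inj_right a).1 (congrArg Nat.Partition.parts h)
    · intro q hq
      rw [Finset.mem_filter, Finset.mem_filter, not_not] at hq
      obtain ⟨⟨-, hq1⟩, hq2⟩ := hq
      refine ⟨delPart n a q hq2, ?_, ?_⟩
      · rw [Finset.mem_filter]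
        exact ⟨Finset.mem_univ _, fun b hb => hq1 b (Multiset.mem_of_mem_erase hb)⟩
      · apply Nat.Partition.ext
        exact Multiset.cons_erase hq2

theorem av_insert' (T : Finset ℕ) (a n : ℕ) (han : n < a) :
    av (insert a T) n = av T n := by
  classical
  unfold av
  congr 1
  refine Finset.filter_congr fun p _ => ?_
  constructor
  · intro h b hb hbT; exact h b hb (Finset.mem_insert_of_mem hbT)
  · intro h b hb hbT
    rcases Finset.mem_insert.1 hbT with h' | h'
    · have := p.le_of_mem_parts hb; omega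
    · exact h b hb h'

/-- the partition series modulo 2 -/
noncomputable def partSeries : PowerSeries (ZMod 2) :=
  PowerSeries.mk fun n => (Fintype.card (Nat.Partition n) : ZMod 2)

theorem av_eq (T : Finset ℕ) (hT : 0 ∉ T) (n : ℕ) : (av T n : ZMod 2) = co (partSeries * F T) n := by
  classical
  induction T using Finset.induction_on generalizing n with
  | empty =>
    simp [av, F, partSeries, co]
  | insert a s ha ih =>
    have hs : 0 ∉ s := fun h => hT (Finset.mem_insert_of_mem h)
    have ha0 : 0 < a := by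
      rcases Nat.eq_zero_or_pos a with h | h
      · subst h; exact absurd (Finset.mem_insert_self _ _) hT
      · exact h
    have e : partSeries * F (insert a s) = (partSeries * F s) * (1 + X ^ a) := by
      unfold F; rw [Finset.prod_insert ha]; ring
    rw [e, co_mul_one_add]
    split_ifs with h
    · have h1 := av_insert s a n ha0 ha h
      have h2 : (av (insert a s) n : ZMod 2) + (av s (n - a) : ZMod 2) = (av s n : ZMod 2) := by
        exact_mod_cast congrArg (Nat.cast (R := ZMod 2)) h1
      rw [← ih hs, ← ih hs, ← h2, add_assoc, CharTwo.add_self_eq_zero, add_zero]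
    · rw [av_insert' s a n (by omega), ih hs, add_zero]

theorem part_ne_zero : partSeries ≠ 0 := by
  intro h
  have : coeff 0 partSeries = 0 := by rw [h]; simp
  unfold partSeries at this
  rw [PowerSeries.coeff_mk] at this
  simp at this

/-! ### the lower bound -/

theorem F_eq_sum (T : Finset ℕ) : F T = ∑ t ∈ T.powerset, X ^ (∑ s ∈ t, s) := by
  unfold F
  rw [Finset.prod_one_add]
  refine Finset.sum_congr rfl fun t _ => ?_
  rw [Finset.prod_pow_eq_pow_sum]

theorem ones_le (S : Set ℕ) (x : ℕ) :
    ((range x).filter fun n => sco 1 S n ≠ 0).card ≤ 2 ^ (S ∩ Set.Iio x).ncard := by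
  classical
  set T := (Finset.range x).filter fun s => s ∈ S with hT
  have h1 : (S ∩ Set.Iio x).ncard = T.card := by
    rw [← Set.ncard_coe_finset]
    congr 1
    ext s; simp [hT, and_comm]
  rw [h1, ← Finset.card_powerset]
  have : ((range x).filter fun n => sco 1 S n ≠ 0) ⊆ T.powerset.image fun t => ∑ s ∈ t, s := by
    intro n hn
    rw [Finset.mem_filter, Finset.mem_range] at hn
    obtain ⟨hn1, hn2⟩ := hn
    rw [sco_eq 1 S T n (fun s hs => by simp [hT]; intro _; omega), one_mul, F_eq_sum] at hn2
    unfold co at hn2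
    rw [map_sum] at hn2
    obtain ⟨t, ht, ht2⟩ := Finset.exists_ne_zero_of_sum_ne_zero hn2
    rw [PowerSeries.coeff_X_pow] at ht2
    rw [Finset.mem_image]
    refine ⟨t, ht, ?_⟩
    by_contra hcon
    rw [if_neg (fun h => hcon h.symm)] at ht2
    exact ht2 rfl
  exact (Finset.card_le_card this).trans Finset.card_image_le

end Pool.Agent.H866.NE
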